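import Pool.Agent.Run7.h246.MC.Fin

/-!
# Record prime gaps at linear functionals of products of powers of matrices modulo a prime (helper246)
-/

set_option autoImplicit false
set_option linter.unusedSectionVars false

open Finset Filter Matrix

namespace Pool.Agent.Run7.h246.MC

open Pool.Agent.W147.PS (ff ev_pow)

open scoped Classical in
/-- **Record prime gaps at linear functionals of products of powers of matrices modulo a prime.** -/
theorem gen_main (n r k m : ℕ) (hn : 1 ≤ n) (δ : ℝ) (hδ : 0 < δ) (hδ1 : δ ≤ 1) :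
    ∃ κ₀ : ℝ, 0 < κ₀ ∧ ∃ p₀ : ℕ, ∀ p : ℕ, p.Prime → p₀ ≤ p →
    ∀ e : Fin n → Fin r → ℤ, (∀ j, e j ≠ 0 ∧ ∀ i, |e j i| ≤ m) →
    ∀ H : Fin n → Matrix (Fin k) (Fin k) (ZMod p),
      (∀ α : Fin n → ZMod p, α ≠ 0 → ∃ v, ∑ j with e j = v, α j • H j ≠ 0) →
    ∀ (M : Fin n → ℤ) (L : Fin n → ℕ), (∀ j, (p : ℝ) ^ δ ≤ L j ∧ L j ≤ p) →
      (p : ℝ) ^ ((n : ℝ) - 1 / 2 + δ) ≤ ∏ j, (L j : ℝ) →
    (p : ℝ) ^ (-δ) * ((Nat.card (GL (Fin k) (ZMod p)) : ℝ) ^ r * ∏ j, ((L j : ℝ) / p)) ≤
      ({A : Fin r → GL (Fin k) (ZMod p) | ∀ j, ∃ z : ℤ,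
        M j < z ∧ z ≤ M j + L j ∧
        (z : ZMod p) = trace (H j * ((word A (e j) : GL (Fin k) (ZMod p)) :
          Matrix (Fin k) (Fin k) (ZMod p))) ∧
        ∀ n : ℤ, |(n : ℝ) - z| ≤ κ₀ * ff p →
          ∃ l : ℕ, l.Prime ∧ (l : ℝ) ≤ (p : ℝ) ^ δ ∧ (l : ℤ) ∣ n}.ncard : ℝ) := by
  obtain ⟨κ₀, hκ, p₁, hmain⟩ := cone_main n hn δ hδ hδ1
  have tc : Tendsto (fun q : ℕ => (q : ℝ)) atTop atTop := tendsto_natCast_atTop_atTop
  have hev := (((eventually_ge_atTop p₁).and
    (((tendsto_rpow_atTop (show (0 : ℝ) < δ / 4 by positivity)).comp tc).eventually_ge_atTop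
      (wtB r m : ℝ))).and (eventually_ge_atTop (2 * k))).and
    (((tendsto_rpow_atTop (show (0 : ℝ) < 1 / 2 by norm_num)).comp tc).eventually_ge_atTop
      (2 * ((m : ℝ) + 1)))
  obtain ⟨p₀, hp₀⟩ := eventually_atTop.mp hev
  refine ⟨κ₀, hκ, p₀, ?_⟩
  intro p hp hpp e hem H hH M L hL hvol
  have : Fact p.Prime := ⟨hp⟩
  obtain ⟨⟨⟨g1, g2⟩, g3⟩, g4⟩ := hp₀ p hpp
  simp only [Function.comp_apply] at g2 g4
  have hp1 : (1 : ℝ) < p := by exact_mod_cast hp.one_lt
  have hp0 : (0 : ℝ) < p := by linarith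
  have heE : ∀ j, e j ∈ exps r m := fun j => (mem_exps _).2 (hem j)
  set G := GL (Fin k) (ZMod p) with hG
  -- the coordinates
  set R : (Fin r → G) → Fin n → ZMod p := fun A j =>
    trace (H j * ((word A (e j) : G) : Matrix (Fin k) (Fin k) (ZMod p))) with hR
  set act : (ZMod p)ˣ → (Fin r → G) → (Fin r → G) := fun t A i =>
    scal (t ^ (2 * m + 1) ^ (i : ℕ)) * A i with hact
  set w : Fin n → ℤ := fun j => wt m (e j) with hw
  have hm1 := hmain p g1 (wtB r m) g2 (Fin n) (Fintype.card_fin n) w (fun j => wt_ne_zero (heE j))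
    (fun j => wt_le (heE j)) (Fin r → G) univ R act univ_nonempty (fun _ _ _ => mem_univ _)
    (by
      intro t A _ A' _ h
      funext i
      have := congrFun h i
      simp only [hact] at this
      exact mul_left_cancel this)
    (by
      intro t A _ j
      simp only [hR, hact, hw]
      rw [word_scal, Units.val_mul, scal_val, Matrix.scalar_apply, ← Matrix.smul_eq_diagonal_mul,
        Matrix.mul_smul, Matrix.trace_smul, smul_eq_mul]
      congr 2
      unfold wt
      rw [← zpow_sum]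
      refine prod_congr rfl fun i _ => ?_
      rw [← zpow_natCast, ← _root_.zpow_mul]
      congr 1
      push_cast
      ring)
    (by
      intro α hα
      obtain ⟨v, hv⟩ := hH α hα
      set K : Matrix (Fin k) (Fin k) (ZMod p) := ∑ j with e j = v, α j • H j with hK
      obtain ⟨j0, hj0, -⟩ := exists_ne_zero_of_sum_ne_zero hv
      have hjv : e j0 = v := (mem_filter.1 hj0).2
      have hvE : v ∈ exps r m := hjv ▸ heE j0
      have he := (mem_exps v).1 hvE
      have h2 := count_word (F := ZMod p) (k := k) (by rw [ZMod.card]; exact g3) m r v he.1 he.2 K hv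
      have h3 : ∀ A : Fin r → G, ∑ j with w j = wt m v, α j * R A j =
          trace (K * ((word A v : G) : Matrix (Fin k) (Fin k) (ZMod p))) := by
        intro A
        have h4 : (univ.filter fun j : Fin n => w j = wt m v) =
            univ.filter fun j : Fin n => e j = v := by
          ext j
          rw [mem_filter, mem_filter]
          refine and_congr_right fun _ => ⟨fun h => wt_inj (heE j) hvE h, fun h => by
            simp only [hw]
            rw [h]⟩
        rw [h4, hK, Finset.sum_mul, Matrix.trace_sum]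
        refine sum_congr rfl fun j hj => ?_
        simp only [hR]
        rw [(mem_filter.1 hj).2, Matrix.smul_mul, Matrix.trace_smul, smul_eq_mul]
      have h5 : (univ.filter fun A : Fin r → G =>
          ∀ d : ℤ, ∑ j with w j = d, α j * R A j = 0).card ≤
          (univ.filter (fun A : Fin r → G => trace (K * ((word A v : G) :
            Matrix (Fin k) (Fin k) (ZMod p))) = 0)).card := by
        apply card_le_card
        intro A hA
        rw [mem_filter] at hA ⊢
        refine ⟨mem_univ _, ?_⟩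
        rw [← h3]
        exact hA.2 _
      have h6 : ((univ.filter fun A : Fin r → G =>
          ∀ d : ℤ, ∑ j with w j = d, α j * R A j = 0).card : ℝ) * p ≤
          2 * (m + 1) * (univ : Finset (Fin r → G)).card := by
        rw [ZMod.card] at h2
        have h7 := (Nat.mul_le_mul_right p h5).trans h2
        rw [card_univ, Fintype.card_fun, Fintype.card_fin]
        exact_mod_cast h7
      have h8 : 2 * ((m : ℝ) + 1) / p ≤ (p : ℝ) ^ (-(1 / 2) + δ / 4) := by
        rw [div_le_iff₀ hp0]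
        calc 2 * ((m : ℝ) + 1) ≤ (p : ℝ) ^ (1 / 2 : ℝ) := g4
          _ ≤ (p : ℝ) ^ (1 / 2 + δ / 4) :=
              Real.rpow_le_rpow_of_exponent_le hp1.le (by linarith)
          _ = (p : ℝ) ^ (-(1 / 2) + δ / 4) * p := by
              nth_rewrite 3 [← Real.rpow_one (p : ℝ)]
              rw [← Real.rpow_add hp0]
              congr 1
              ring
      calc ((univ.filter fun A : Fin r → G =>
          ∀ d : ℤ, ∑ j with w j = d, α j * R A j = 0).card : ℝ)
          ≤ 2 * (m + 1) * (univ : Finset (Fin r → G)).card / p := by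
            rw [le_div_iff₀ hp0]
            exact h6
        _ = (univ : Finset (Fin r → G)).card * (2 * ((m : ℝ) + 1) / p) := by ring
        _ ≤ _ := by gcongr)
    M L (fun j => (hL j).1) (fun j => (hL j).2) hvol
  rw [card_univ, Fintype.card_fun, Fintype.card_fin] at hm1
  rw [Nat.card_eq_fintype_card]
  push_cast at hm1
  refine hm1.trans ?_
  rw [← Set.ncard_coe_finset]
  have hsub : ((univ.filter (fun A : Fin r → G => ∀ j : Fin n, ∃ z : ℤ, M j < z ∧
      z ≤ M j + L j ∧ (z : ZMod p) = R A j ∧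
        ∀ n : ℤ, |(n : ℝ) - z| ≤ κ₀ * ff p →
          ∃ l : ℕ, l.Prime ∧ (l : ℝ) ≤ (p : ℝ) ^ δ ∧ (l : ℤ) ∣ n) : Finset (Fin r → G)) :
          Set (Fin r → G)) ⊆
      {A : Fin r → G | ∀ j, ∃ z : ℤ, M j < z ∧ z ≤ M j + L j ∧
        (z : ZMod p) = trace (H j * ((word A (e j) : G) : Matrix (Fin k) (Fin k) (ZMod p))) ∧
        ∀ n : ℤ, |(n : ℝ) - z| ≤ κ₀ * ff p →
          ∃ l : ℕ, l.Prime ∧ (l : ℝ) ≤ (p : ℝ) ^ δ ∧ (l : ℤ) ∣ n} := by
    intro A hA
    rw [mem_coe, mem_filter] at hA
    exact hA.2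
  exact_mod_cast Set.ncard_le_ncard hsub (Set.toFinite _)

end Pool.Agent.Run7.h246.MC
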