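import Mathlib

/-!
# Counting invertible matrices modulo `p` with a linear relation between the entries of a word (helper246)
-/

set_option autoImplicit false
set_option linter.unusedSectionVars false

open Polynomial Finset Matrix

namespace Pool.Agent.Run7.h246.MC

/-- double counting along the translates of a line -/
lemma line_count {F V : Type} [Field F] [Fintype F] [AddCommGroup V] [Module F V] [Fintype V]
    (T : V → Prop) [DecidablePred T] (B : V) (c : ℕ)
    (h : ∀ A : V, (univ.filter (fun s : F => T (A + s • B))).card ≤ c) :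
    (univ.filter T).card * Fintype.card F ≤ c * Fintype.card V := by
  have h1 : ∑ A : V, (univ.filter (fun s : F => T (A + s • B))).card =
      (univ.filter T).card * Fintype.card F := by
    simp only [card_filter]
    rw [sum_comm]
    have h2 : ∀ s : F, ∑ A : V, (if T (A + s • B) then 1 else 0) = ∑ A : V, if T A then 1 else 0 := by
      intro s
      exact Equiv.sum_comp (Equiv.addRight (s • B)) (fun A => if T A then 1 else 0)
    rw [sum_congr rfl fun s _ => h2 s, sum_const, card_univ, smul_eq_mul, mul_comm]
  rw [← h1]
  refine (sum_le_card_nsmul _ _ c fun A _ => h A).trans (le_of_eq ?_)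
  rw [card_univ, smul_eq_mul, mul_comm]

variable {F : Type} [Field F] [Fintype F] [DecidableEq F] {k : ℕ}

/-- the line in the space of matrices -/
noncomputable def lineM (A B : Matrix (Fin k) (Fin k) F) : Matrix (Fin k) (Fin k) F[X] :=
  (X : F[X]) • A.map C + B.map C

lemma lineM_eval (A B : Matrix (Fin k) (Fin k) F) (s : F) :
    (evalRingHom s).mapMatrix (lineM A B) = s • A + B := by
  ext i j
  simp only [lineM, RingHom.mapMatrix_apply, Matrix.map_apply, Matrix.add_apply, Matrix.smul_apply,
    coe_evalRingHom, smul_eq_mul, eval_add, eval_mul, eval_X, eval_C]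

lemma natDegree_lineM_pow (A B : Matrix (Fin k) (Fin k) F) (j : ℕ) :
    ∀ a b, ((lineM A B ^ j) a b).natDegree ≤ j := by
  induction j with
  | zero =>
    intro a b
    rw [pow_zero, Matrix.one_apply]
    split_ifs <;> simp
  | succ j ih =>
    intro a b
    rw [pow_succ, Matrix.mul_apply]
    apply natDegree_sum_le_of_forall_le
    intro c _
    refine natDegree_mul_le.trans ?_
    apply Nat.add_le_add (ih a c)
    simp only [lineM, Matrix.add_apply, Matrix.smul_apply, Matrix.map_apply, smul_eq_mul]
    refine (natDegree_add_le _ _).trans ?_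
    refine max_le ?_ (by simp)
    refine natDegree_mul_le.trans ?_
    simp

/-- few points of a line satisfy a linear relation between the entries of a power -/
lemma pow_roots (H A B : Matrix (Fin k) (Fin k) F) (j : ℕ) (hB : trace (H * B ^ j) ≠ 0) :
    (univ.filter (fun s : F => trace (H * (A + s • B) ^ j) = 0)).card ≤ j + 1 := by
  set Q : F[X] := trace (H.map C * lineM A B ^ j) with hQ
  have hev : ∀ s : F, Q.eval s = trace (H * (s • A + B) ^ j) := by
    intro s
    have h1 : Q.eval s = (evalRingHom s) Q := rfl
    rw [h1, hQ, AddMonoidHom.map_trace]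
    congr 1
    have h2 : (H.map C * lineM A B ^ j).map (evalRingHom s) =
        (evalRingHom s).mapMatrix (H.map C * lineM A B ^ j) := rfl
    rw [h2, map_mul, map_pow, lineM_eval]
    congr 1
    ext a b
    simp
  have hQ0 : Q ≠ 0 := by
    intro h
    apply hB
    have h1 := hev 0
    rw [h, eval_zero, zero_smul, zero_add] at h1
    exact h1.symm
  have hdeg : Q.natDegree ≤ j := by
    rw [hQ, Matrix.trace]
    apply natDegree_sum_le_of_forall_le
    intro a _
    rw [Matrix.diag_apply, Matrix.mul_apply]
    apply natDegree_sum_le_of_forall_le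
    intro b _
    rw [Matrix.map_apply]
    exact (natDegree_C_mul_le _ _).trans (natDegree_lineM_pow A B j b a)
  have hsub : univ.filter (fun s : F => trace (H * (A + s • B) ^ j) = 0) ⊆
      insert 0 (Q.roots.toFinset.image fun x => x⁻¹) := by
    intro s hs
    rw [mem_filter] at hs
    rw [mem_insert]
    by_cases h0 : s = 0
    · exact Or.inl h0
    right
    rw [mem_image]
    refine ⟨s⁻¹, ?_, inv_inv s⟩
    rw [Multiset.mem_toFinset, mem_roots hQ0, IsRoot, hev]
    have h1 : A + s • B = s • (s⁻¹ • A + B) := by
      rw [smul_add, smul_smul, mul_inv_cancel₀ h0, one_smul]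
    have h2 := hs.2
    rw [h1, _root_.smul_pow, mul_smul_comm, trace_smul, smul_eq_mul] at h2
    exact (mul_eq_zero.1 h2).resolve_left (pow_ne_zero _ h0)
  refine (card_le_card hsub).trans ((card_insert_le _ _).trans ?_)
  refine Nat.add_le_add_right ?_ 1
  exact card_image_le.trans ((Multiset.toFinset_card_le _).trans ((card_roots' Q).trans hdeg))

/-- idempotents detect all matrices -/
lemma exists_idem (H : Matrix (Fin k) (Fin k) F) (hH : H ≠ 0) :
    ∃ B : Matrix (Fin k) (Fin k) F, ∀ j : ℕ, j ≠ 0 → trace (H * B ^ j) ≠ 0 := by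
  have hid : ∀ B : Matrix (Fin k) (Fin k) F, B * B = B → trace (H * B) ≠ 0 →
      ∀ j : ℕ, j ≠ 0 → trace (H * B ^ j) ≠ 0 := by
    intro B hB ht j hj
    have : IsIdempotentElem B := hB
    rw [this.pow_eq hj]
    exact ht
  by_cases hd : ∃ b, H b b ≠ 0
  · obtain ⟨b, hb⟩ := hd
    refine ⟨single b b 1, hid _ (by rw [single_mul_single_same, mul_one]) ?_⟩
    rw [trace_mul_single]
    simpa using hb
  · push Not at hd
    have h1 : ∃ a b, H a b ≠ 0 := by
      by_contra hcon
      push Not at hcon
      apply hH
      ext a b
      exact hcon a b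
    obtain ⟨a, b, hab⟩ := h1
    have hne : a ≠ b := by
      rintro rfl
      exact hab (hd a)
    refine ⟨single b b 1 + single b a 1, hid _ ?_ ?_⟩
    · rw [add_mul, mul_add, mul_add, single_mul_single_same, single_mul_single_same,
        single_mul_single_of_ne _ _ _ _ hne, single_mul_single_of_ne _ _ _ _ hne]
      simp
    · rw [mul_add, trace_add, trace_mul_single, trace_mul_single]
      simp [hd b, hab]

/-- the number of matrices with a linear relation between the entries of a power -/
lemma count_pow (H : Matrix (Fin k) (Fin k) F) (hH : H ≠ 0) (j : ℕ) (hj : j ≠ 0) :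
    (univ.filter (fun A : Matrix (Fin k) (Fin k) F => trace (H * A ^ j) = 0)).card *
      Fintype.card F ≤ (j + 1) * Fintype.card (Matrix (Fin k) (Fin k) F) := by
  obtain ⟨B, hB⟩ := exists_idem H hH
  exact line_count (fun A => trace (H * A ^ j) = 0) B (j + 1)
    (fun A => pow_roots H A B j (hB j hj))

/-- the number of singular matrices -/
lemma count_sing : (univ.filter (fun A : Matrix (Fin k) (Fin k) F => det A = 0)).card *
      Fintype.card F ≤ k * Fintype.card (Matrix (Fin k) (Fin k) F) := by
  refine line_count (fun A => det A = 0) 1 k fun A => ?_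
  have hsub : univ.filter (fun s : F => det (A + s • (1 : Matrix (Fin k) (Fin k) F)) = 0) ⊆
      (charpoly (-A)).roots.toFinset := by
    intro s hs
    rw [mem_filter] at hs
    rw [Multiset.mem_toFinset, mem_roots (charpoly_monic _).ne_zero, IsRoot, eval_charpoly]
    have h1 : scalar (Fin k) s - -A = A + s • (1 : Matrix (Fin k) (Fin k) F) := by
      rw [sub_neg_eq_add, add_comm, scalar_apply, smul_one_eq_diagonal]
    rw [h1]
    exact hs.2
  refine (card_le_card hsub).trans ((Multiset.toFinset_card_le _).trans ((card_roots' _).trans ?_))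
  rw [charpoly_natDegree_eq_dim, Fintype.card_fin]

/-- the size of the general linear group -/
lemma card_GL_lower (hF : 2 * k ≤ Fintype.card F) :
    Fintype.card (Matrix (Fin k) (Fin k) F) ≤ 2 * Fintype.card (GL (Fin k) F) := by
  classical
  have h1 := count_sing (F := F) (k := k)
  have h2 : (univ.filter (fun A : Matrix (Fin k) (Fin k) F => det A = 0)).card +
      (univ.filter (fun A : Matrix (Fin k) (Fin k) F => ¬ det A = 0)).card =
      Fintype.card (Matrix (Fin k) (Fin k) F) := by
    rw [card_filter_add_card_filter_not, card_univ]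
  have h3 : (univ.filter (fun A : Matrix (Fin k) (Fin k) F => ¬ det A = 0)).card ≤
      Fintype.card (GL (Fin k) F) := by
    rw [← card_univ (α := GL (Fin k) F)]
    refine card_le_card_of_surjOn (fun g : GL (Fin k) F => (g : Matrix (Fin k) (Fin k) F)) ?_
    intro A hA
    rw [mem_coe, mem_filter] at hA
    exact ⟨GeneralLinearGroup.mkOfDetNeZero A hA.2, by simp, rfl⟩
  have hN : 0 < Fintype.card F := Fintype.card_pos
  set s := (univ.filter (fun A : Matrix (Fin k) (Fin k) F => det A = 0)).card
  set N := Fintype.card (Matrix (Fin k) (Fin k) F)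
  set q := Fintype.card F
  have h4 : 2 * s * q ≤ N * q := by
    calc 2 * s * q = 2 * (s * q) := by ring
      _ ≤ 2 * (k * N) := by omega
      _ = 2 * k * N := by ring
      _ ≤ q * N := Nat.mul_le_mul_right _ hF
      _ = N * q := mul_comm _ _
  have h5 : 2 * s ≤ N := Nat.le_of_mul_le_mul_right h4 hN
  omega

/-- the number of invertible matrices with a linear relation between the entries of a power,
positive or negative -/
lemma count_zpow (hF : 2 * k ≤ Fintype.card F) (m : ℕ) (H : Matrix (Fin k) (Fin k) F) (hH : H ≠ 0)
    (j : ℤ) (hj : j ≠ 0) (hjm : |j| ≤ m) :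
    (univ.filter (fun A : GL (Fin k) F => trace (H * ((A ^ j : GL (Fin k) F) :
      Matrix (Fin k) (Fin k) F)) = 0)).card *
      Fintype.card F ≤ 2 * (m + 1) * Fintype.card (GL (Fin k) F) := by
  classical
  have key : ∀ l : ℕ, l ≠ 0 → l ≤ m →
      (univ.filter (fun A : GL (Fin k) F => trace (H * ((A ^ l : GL (Fin k) F) :
        Matrix (Fin k) (Fin k) F)) = 0)).card *
        Fintype.card F ≤ 2 * (m + 1) * Fintype.card (GL (Fin k) F) := by
    intro l hl hlm
    have h1 := count_pow H hH l hl
    have h2 : (univ.filter (fun A : GL (Fin k) F => trace (H * ((A ^ l : GL (Fin k) F) :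
        Matrix (Fin k) (Fin k) F)) = 0)).card ≤
        (univ.filter (fun A : Matrix (Fin k) (Fin k) F => trace (H * A ^ l) = 0)).card := by
      refine card_le_card_of_injOn (fun g : GL (Fin k) F => (g : Matrix (Fin k) (Fin k) F)) ?_ ?_
      · intro g hg
        rw [mem_coe, mem_filter] at hg ⊢
        refine ⟨mem_univ _, ?_⟩
        simpa using hg.2
      · intro g _ g' _ h
        exact Units.ext h
    have h3 := card_GL_lower (F := F) (k := k) hF
    calc _ ≤ (univ.filter (fun A : Matrix (Fin k) (Fin k) F => trace (H * A ^ l) = 0)).card *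
          Fintype.card F := Nat.mul_le_mul_right _ h2
      _ ≤ (l + 1) * Fintype.card (Matrix (Fin k) (Fin k) F) := h1
      _ ≤ (m + 1) * (2 * Fintype.card (GL (Fin k) F)) := Nat.mul_le_mul (by omega) h3
      _ = _ := by ring
  rcases Int.eq_nat_or_neg j with ⟨l, rfl | rfl⟩
  · have h1 := key l (by rintro rfl; exact hj rfl) (by
      rw [Nat.abs_cast] at hjm
      exact_mod_cast hjm)
    simpa using h1
  · have h1 := key l (by rintro rfl; exact hj (by simp)) (by
      rw [abs_neg, Nat.abs_cast] at hjm
      exact_mod_cast hjm)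
    refine le_trans (le_of_eq ?_) h1
    congr 1
    refine card_bij (fun g _ => g⁻¹) ?_ ?_ ?_
    · intro g hg
      rw [mem_filter] at hg ⊢
      refine ⟨mem_univ _, ?_⟩
      have := hg.2
      rw [_root_.zpow_neg, zpow_natCast] at this
      rw [inv_pow]
      exact this
    · intro g _ g' _ h
      exact inv_injective h
    · intro g hg
      rw [mem_filter] at hg
      refine ⟨g⁻¹, ?_, inv_inv g⟩
      rw [mem_filter]
      refine ⟨mem_univ _, ?_⟩
      rw [_root_.zpow_neg, zpow_natCast, inv_pow, inv_inv]
      exact hg.2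

/-- the product `A_0 ^ e_0 ⋯ A_{r-1} ^ e_{r-1}` -/
def word {G : Type} [Group G] {r : ℕ} (A : Fin r → G) (e : Fin r → ℤ) : G :=
  (List.ofFn fun i => A i ^ e i).prod

lemma word_cons {G : Type} [Group G] {r : ℕ} (g : G) (A : Fin r → G) (e : Fin (r + 1) → ℤ) :
    word (Fin.cons g A : Fin (r + 1) → G) e = g ^ e 0 * word A (Fin.tail e) := by
  unfold word
  rw [List.ofFn_succ, List.prod_cons]
  simp [Fin.tail]

lemma word_zero {G : Type} [Group G] {r : ℕ} (A : Fin r → G) : word A (0 : Fin r → ℤ) = 1 := by
  unfold word
  apply List.prod_eq_one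
  intro x hx
  rw [List.mem_ofFn] at hx
  obtain ⟨i, rfl⟩ := hx
  simp

/-- the number of tuples with a linear relation between the entries of a word -/
lemma count_word (hF : 2 * k ≤ Fintype.card F) (m : ℕ) : ∀ (r : ℕ) (e : Fin r → ℤ), e ≠ 0 →
    (∀ i, |e i| ≤ m) → ∀ H : Matrix (Fin k) (Fin k) F, H ≠ 0 →
    (univ.filter (fun A : Fin r → GL (Fin k) F => trace (H * ((word A e : GL (Fin k) F) :
      Matrix (Fin k) (Fin k) F)) = 0)).card *
      Fintype.card F ≤ 2 * (m + 1) * Fintype.card (GL (Fin k) F) ^ r := by
  intro r
  induction r with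
  | zero =>
    intro e he
    exact absurd (Subsingleton.elim _ _) he
  | succ r ih =>
    intro e he hem H hH
    set G := GL (Fin k) F with hG
    have h1 : (univ.filter (fun A : Fin (r + 1) → GL (Fin k) F =>
        trace (H * ((word A e : GL (Fin k) F) : Matrix (Fin k) (Fin k) F)) = 0)).card =
        ∑ g : G, (univ.filter (fun A : Fin r → G =>
          trace (H * (((g ^ e 0 * word A (Fin.tail e) : G)) : Matrix (Fin k) (Fin k) F)) = 0)).card := by
      simp only [card_filter]
      rw [← (Fin.consEquiv (fun _ : Fin (r + 1) => G)).sum_comp, Fintype.sum_prod_type]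
      refine sum_congr rfl fun g _ => sum_congr rfl fun A _ => ?_
      have h2 : (Fin.consEquiv (fun _ : Fin (r + 1) => G)) (g, A) = (Fin.cons g A : Fin (r + 1) → G) := rfl
      rw [h2, word_cons]
    rw [h1, sum_mul]
    by_cases ht : Fin.tail e = 0
    · have he0 : e 0 ≠ 0 := by
        intro h
        apply he
        funext i
        refine Fin.cases h (fun i => ?_) i
        exact congrFun ht i
      have h2 := count_zpow hF m H hH (e 0) he0 (hem 0)
      have h3 : ∀ g : G, (univ.filter (fun A : Fin r → G =>
          trace (H * (((g ^ e 0 * word A (Fin.tail e) : G)) : Matrix (Fin k) (Fin k) F)) = 0)).card =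
          (if trace (H * ((g ^ e 0 : G) : Matrix (Fin k) (Fin k) F)) = 0 then 1 else 0) *
            Fintype.card G ^ r := by
        intro g
        have h4 : ∀ A : Fin r → G, g ^ e 0 * word A (Fin.tail e) = g ^ e 0 := by
          intro A
          rw [ht, word_zero, mul_one]
        simp only [h4]
        split_ifs with h5
        · rw [filter_true_of_mem fun _ _ => h5, card_univ, Fintype.card_fun, Fintype.card_fin, one_mul]
        · rw [filter_false_of_mem fun _ _ => h5, card_empty, zero_mul]
      have h6 : ∑ g : G, (univ.filter (fun A : Fin r → G =>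
          trace (H * (((g ^ e 0 * word A (Fin.tail e) : G)) : Matrix (Fin k) (Fin k) F)) = 0)).card *
            Fintype.card F =
          ((univ.filter (fun A : GL (Fin k) F => trace (H * ((A ^ (e 0) : GL (Fin k) F) :
            Matrix (Fin k) (Fin k) F)) = 0)).card * Fintype.card F) * Fintype.card G ^ r := by
        rw [card_filter, sum_mul, sum_mul]
        refine sum_congr rfl fun g _ => ?_
        rw [h3 g]
        ring
      rw [h6]
      calc _ ≤ (2 * (m + 1) * Fintype.card G) * Fintype.card G ^ r := Nat.mul_le_mul_right _ h2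
        _ = _ := by ring
    · have h2 : ∀ g : G, (univ.filter (fun A : Fin r → G =>
          trace (H * (((g ^ e 0 * word A (Fin.tail e) : G)) : Matrix (Fin k) (Fin k) F)) = 0)).card *
            Fintype.card F ≤ 2 * (m + 1) * Fintype.card G ^ r := by
        intro g
        have h3 : H * ((g ^ e 0 : G) : Matrix (Fin k) (Fin k) F) ≠ 0 := by
          intro h
          apply hH
          exact (Units.mul_left_eq_zero (g ^ e 0)).1 h
        have h4 := ih (Fin.tail e) ht (fun i => hem i.succ) _ h3
        have h5 : ∀ A : Fin r → G, H * ((g ^ e 0 * word A (Fin.tail e) : G) : Matrix (Fin k) (Fin k) F) =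
            H * ((g ^ e 0 : G) : Matrix (Fin k) (Fin k) F) *
              ((word A (Fin.tail e) : G) : Matrix (Fin k) (Fin k) F) := by
          intro A
          rw [Units.val_mul, mul_assoc]
        simp only [h5]
        exact h4
      refine (sum_le_card_nsmul _ _ _ fun g _ => h2 g).trans (le_of_eq ?_)
      rw [card_univ, smul_eq_mul]
      ring

end Pool.Agent.Run7.h246.MC
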