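import Pool.Agent.Run7.h246.MC.Cone
import Pool.Agent.Run7.h246.MC.Mat

/-!
# Record prime gaps at all entries of all products of powers of matrices modulo a prime (helper246)
-/

set_option autoImplicit false
set_option linter.unusedSectionVars false

open Finset Filter Matrix

namespace Pool.Agent.Run7.h246.MC

open Pool.Agent.W147.PS (ff ev_pow)

/-- the exponent vectors `e ≠ 0` with `|e i| ≤ m` -/
noncomputable def exps (r m : ℕ) : Finset (Fin r → ℤ) :=
  (Fintype.piFinset fun _ => Icc (-(m : ℤ)) m).erase 0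

lemma mem_exps {r m : ℕ} (e : Fin r → ℤ) : e ∈ exps r m ↔ e ≠ 0 ∧ ∀ i, |e i| ≤ m := by
  unfold exps
  rw [mem_erase, Fintype.mem_piFinset]
  simp only [mem_Icc, abs_le]

/-- the weight of an exponent vector -/
def wt (m : ℕ) {r : ℕ} (e : Fin r → ℤ) : ℤ := ∑ i, e i * (2 * m + 1 : ℤ) ^ (i : ℕ)

lemma wt_aux (B : ℤ) (hB : 1 ≤ B) : ∀ (r : ℕ) (g : Fin r → ℤ), (∀ i, |g i| < B) →
    ∑ i, g i * B ^ (i : ℕ) = 0 → g = 0 := by
  intro r
  induction r with
  | zero =>
    intro g _ _
    exact Subsingleton.elim _ _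
  | succ r ih =>
    intro g hg h
    rw [Fin.sum_univ_succ] at h
    have h1 : ∑ i : Fin r, g i.succ * B ^ ((i.succ : Fin (r + 1)) : ℕ) =
        B * ∑ i : Fin r, g i.succ * B ^ (i : ℕ) := by
      rw [mul_sum]
      refine sum_congr rfl fun i _ => ?_
      rw [Fin.val_succ, pow_succ]
      ring
    rw [h1, Fin.val_zero, pow_zero, mul_one] at h
    have h2 : B ∣ g 0 := ⟨-∑ i : Fin r, g i.succ * B ^ (i : ℕ), by linarith⟩
    have h3 : g 0 = 0 := Int.eq_zero_of_abs_lt_dvd h2 (hg 0)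
    rw [h3, zero_add] at h
    have h4 : ∑ i : Fin r, g i.succ * B ^ (i : ℕ) = 0 := by
      rcases mul_eq_zero.1 h with h5 | h5
      · omega
      · exact h5
    have h5 := ih (fun i => g i.succ) (fun i => hg i.succ) h4
    funext i
    refine Fin.cases h3 (fun i => ?_) i
    exact congrFun h5 i

lemma wt_ne_zero {m r : ℕ} {e : Fin r → ℤ} (he : e ∈ exps r m) : wt m e ≠ 0 := by
  rw [mem_exps] at he
  intro h
  apply he.1
  refine wt_aux (2 * m + 1) (by omega) r e (fun i => ?_) h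
  have := he.2 i
  omega

lemma wt_inj {m r : ℕ} {e e' : Fin r → ℤ} (he : e ∈ exps r m) (he' : e' ∈ exps r m)
    (h : wt m e = wt m e') : e = e' := by
  rw [mem_exps] at he he'
  have h1 := wt_aux (2 * m + 1) (by omega) r (e - e') (fun i => ?_) ?_
  · exact sub_eq_zero.1 h1
  · have h1 := abs_le.1 (he.2 i)
    have h2 := abs_le.1 (he'.2 i)
    rw [Pi.sub_apply, abs_lt]
    constructor <;> omega
  · unfold wt at h
    simp only [Pi.sub_apply, sub_mul, sum_sub_distrib]
    rw [h, sub_self]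

/-- a bound for the weights -/
def wtB (r m : ℕ) : ℕ := ∑ i : Fin r, m * (2 * m + 1) ^ (i : ℕ)

lemma wt_le {m r : ℕ} {e : Fin r → ℤ} (he : e ∈ exps r m) : |wt m e| ≤ wtB r m := by
  rw [mem_exps] at he
  unfold wt wtB
  refine (abs_sum_le_sum_abs _ _).trans ?_
  push_cast
  refine sum_le_sum fun i _ => ?_
  rw [abs_mul, abs_of_nonneg (by positivity : (0 : ℤ) ≤ (2 * m + 1 : ℤ) ^ (i : ℕ))]
  exact mul_le_mul_of_nonneg_right (he.2 i) (by positivity)

section
variable {F : Type} [Field F] {k : ℕ}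

/-- scalar matrices -/
noncomputable def scal : Fˣ →* GL (Fin k) F :=
  Units.map ((Matrix.scalar (Fin k) : F →+* Matrix (Fin k) (Fin k) F) : F →* Matrix (Fin k) (Fin k) F)

lemma scal_val (t : Fˣ) : ((scal t : GL (Fin k) F) : Matrix (Fin k) (Fin k) F) =
    Matrix.scalar (Fin k) (t : F) := rfl

lemma scal_comm (t : Fˣ) (g : GL (Fin k) F) : Commute (scal t) g := by
  apply Units.ext
  rw [Units.val_mul, Units.val_mul, scal_val]
  exact (Matrix.scalar_commute (t : F) (fun _ => mul_comm _ _) _).eq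

lemma scal_mul_entry (t : Fˣ) (g : GL (Fin k) F) (a b : Fin k) :
    ((scal t * g : GL (Fin k) F) : Matrix (Fin k) (Fin k) F) a b =
      (t : F) * (g : Matrix (Fin k) (Fin k) F) a b := by
  rw [Units.val_mul, scal_val, Matrix.scalar_apply, Matrix.diagonal_mul]

lemma word_scal : ∀ (r : ℕ) (c : Fin r → Fˣ) (A : Fin r → GL (Fin k) F) (e : Fin r → ℤ),
    word (fun i => scal (c i) * A i) e = scal (∏ i, c i ^ e i) * word A e := by
  intro r
  induction r with
  | zero =>
    intro c A e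
    simp [word]
  | succ r ih =>
    intro c A e
    have h1 : ∀ B : Fin (r + 1) → GL (Fin k) F,
        word B e = B 0 ^ e 0 * word (fun i => B i.succ) (fun i => e i.succ) := by
      intro B
      unfold word
      rw [List.ofFn_succ, List.prod_cons]
    rw [h1, h1 A, ih (fun i => c i.succ), Fin.prod_univ_succ, map_mul,
      (scal_comm (c 0) (A 0)).mul_zpow, map_zpow]
    have h2 := (scal_comm (∏ i : Fin r, c i.succ ^ e i.succ) (A 0 ^ e 0)).eq
    rw [mul_assoc, mul_assoc, ← mul_assoc (A 0 ^ e 0), ← h2, mul_assoc]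

lemma zpow_sum {G : Type} [CommGroup G] {ι : Type} (s : Finset ι) (t : G) (x : ι → ℤ) :
    ∏ i ∈ s, t ^ x i = t ^ ∑ i ∈ s, x i := by
  classical
  induction s using Finset.induction_on with
  | empty => simp
  | insert a s ha ih => rw [prod_insert ha, sum_insert ha, _root_.zpow_add, ih]

end

open scoped Classical in
/-- **Record prime gaps at all entries of all products of powers of matrices modulo a prime.** -/
theorem mat_main (r k m : ℕ) (hr : 1 ≤ r) (hk : 1 ≤ k) (hm : 1 ≤ m) (δ : ℝ) (hδ : 0 < δ)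
    (hδ1 : δ ≤ 1) :
    ∃ κ₀ : ℝ, 0 < κ₀ ∧ ∃ p₀ : ℕ, ∀ p : ℕ, p.Prime → p₀ ≤ p →
    ∀ (M : (Fin r → ℤ) → Fin k → Fin k → ℤ) (L : (Fin r → ℤ) → Fin k → Fin k → ℕ),
      (∀ e ∈ exps r m, ∀ a b, (p : ℝ) ^ δ ≤ L e a b ∧ L e a b ≤ p) →
      (p : ℝ) ^ (((exps r m).card : ℝ) * k ^ 2 - 1 / 2 + δ) ≤
        ∏ e ∈ exps r m, ∏ a, ∏ b, (L e a b : ℝ) →
    (p : ℝ) ^ (-δ) * ((Nat.card (GL (Fin k) (ZMod p)) : ℝ) ^ r *
        ∏ e ∈ exps r m, ∏ a, ∏ b, ((L e a b : ℝ) / p)) ≤
      ({A : Fin r → GL (Fin k) (ZMod p) | ∀ e ∈ exps r m, ∀ a b, ∃ z : ℤ,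
        M e a b < z ∧ z ≤ M e a b + L e a b ∧
        (z : ZMod p) = ((word A e : GL (Fin k) (ZMod p)) : Matrix (Fin k) (Fin k) (ZMod p)) a b ∧
        ∀ n : ℤ, |(n : ℝ) - z| ≤ κ₀ * ff p →
          ∃ l : ℕ, l.Prime ∧ (l : ℝ) ≤ (p : ℝ) ^ δ ∧ (l : ℤ) ∣ n}.ncard : ℝ) := by
  set E := exps r m with hE
  set κ := (↥E × Fin k × Fin k) with hκdef
  have hEne : 0 < E.card := by
    rw [card_pos]
    refine ⟨fun _ => 1, ?_⟩
    rw [hE, mem_exps]
    refine ⟨fun h => ?_, fun i => ?_⟩
    · have := congrFun h ⟨0, hr⟩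
      simp at this
    · rw [abs_one]
      exact_mod_cast hm
  have hcardκ : Fintype.card κ = E.card * (k * k) := by
    show Fintype.card (↥E × Fin k × Fin k) = _
    rw [Fintype.card_prod, Fintype.card_prod, Fintype.card_coe, Fintype.card_fin]
  have hn : 1 ≤ E.card * (k * k) := by
    have := Nat.mul_pos hEne (Nat.mul_pos hk hk)
    omega
  obtain ⟨κ₀, hκ, p₁, hmain⟩ := cone_main (E.card * (k * k)) hn δ hδ hδ1
  have tc : Tendsto (fun q : ℕ => (q : ℝ)) atTop atTop := tendsto_natCast_atTop_atTop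
  have hev := (((eventually_ge_atTop p₁).and
    (((tendsto_rpow_atTop (show (0 : ℝ) < δ / 4 by positivity)).comp tc).eventually_ge_atTop
      (wtB r m : ℝ))).and (eventually_ge_atTop (2 * k))).and
    (((tendsto_rpow_atTop (show (0 : ℝ) < 1 / 2 by norm_num)).comp tc).eventually_ge_atTop
      (2 * ((m : ℝ) + 1)))
  obtain ⟨p₀, hp₀⟩ := eventually_atTop.mp hev
  refine ⟨κ₀, hκ, p₀, ?_⟩
  intro p hp hpp M L hL hvol
  have : Fact p.Prime := ⟨hp⟩
  obtain ⟨⟨⟨g1, g2⟩, g3⟩, g4⟩ := hp₀ p hpp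
  simp only [Function.comp_apply] at g2 g4
  have hp1 : (1 : ℝ) < p := by exact_mod_cast hp.one_lt
  have hp0 : (0 : ℝ) < p := by linarith
  set G := GL (Fin k) (ZMod p) with hG
  -- the coordinates
  set R : (Fin r → G) → κ → ZMod p := fun A j =>
    ((word A (j.1 : Fin r → ℤ) : G) : Matrix (Fin k) (Fin k) (ZMod p)) j.2.1 j.2.2 with hR
  set act : (ZMod p)ˣ → (Fin r → G) → (Fin r → G) := fun t A i =>
    scal (t ^ (2 * m + 1) ^ (i : ℕ)) * A i with hact
  set w : κ → ℤ := fun j => wt m (j.1 : Fin r → ℤ) with hw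
  have hprodL : ∀ f : (Fin r → ℤ) → Fin k → Fin k → ℝ,
      ∏ j : κ, f j.1 j.2.1 j.2.2 = ∏ e ∈ E, ∏ a, ∏ b, f e a b := by
    intro f
    rw [Fintype.prod_prod_type]
    rw [← prod_coe_sort E (fun e => ∏ a, ∏ b, f e a b)]
    refine prod_congr rfl fun e _ => ?_
    rw [Fintype.prod_prod_type]
  have hm1 := hmain p g1 (wtB r m) g2 κ hcardκ w (fun j => wt_ne_zero j.1.2)
    (fun j => wt_le j.1.2) (Fin r → G) univ R act univ_nonempty (fun _ _ _ => mem_univ _)
    (by
      intro t A _ A' _ h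
      funext i
      have := congrFun h i
      simp only [hact] at this
      exact mul_left_cancel this)
    (by
      intro t A _ j
      simp only [hR, hact, hw]
      rw [word_scal, scal_mul_entry]
      congr 3
      unfold wt
      rw [← zpow_sum]
      refine prod_congr rfl fun i _ => ?_
      rw [← zpow_natCast, ← _root_.zpow_mul]
      congr 1
      push_cast
      ring)
    (by
      intro α hα
      have h1 : ∃ j, α j ≠ 0 := by
        by_contra hcon
        push Not at hcon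
        exact hα (funext hcon)
      obtain ⟨⟨e, a₀, b₀⟩, hj⟩ := h1
      set H : Matrix (Fin k) (Fin k) (ZMod p) := fun b a => α (e, a, b) with hH
      have hH0 : H ≠ 0 := by
        intro h
        apply hj
        have := congrFun (congrFun h b₀) a₀
        simpa [hH] using this
      have he := (mem_exps (e : Fin r → ℤ)).1 e.2
      have h2 := count_word (F := ZMod p) (k := k) (by rw [ZMod.card]; exact g3) m r e he.1 he.2 H hH0
      have h3 : ∀ A : Fin r → G, ∑ j with w j = wt m (e : Fin r → ℤ), α j * R A j =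
          trace (H * ((word A (e : Fin r → ℤ) : G) : Matrix (Fin k) (Fin k) (ZMod p))) := by
        intro A
        have h4 : (univ.filter fun j : κ => w j = wt m (e : Fin r → ℤ)) =
            univ.filter fun j : κ => j.1 = e := by
          ext j
          rw [mem_filter, mem_filter]
          refine and_congr_right fun _ => ⟨fun h => ?_, fun h => by rw [hw, ← h]⟩
          exact Subtype.ext (wt_inj j.1.2 e.2 h)
        rw [h4, sum_filter, Fintype.sum_prod_type, sum_eq_single e]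
        · simp only [if_true]
          rw [Fintype.sum_prod_type, sum_comm, Matrix.trace]
          refine sum_congr rfl fun b _ => ?_
          rw [Matrix.diag_apply, Matrix.mul_apply]
        · intro e' _ hne
          refine sum_eq_zero fun x _ => ?_
          rw [if_neg hne]
        · intro h
          exact absurd (mem_univ _) h
      have h5 : (univ.filter fun A : Fin r → G =>
          ∀ d : ℤ, ∑ j with w j = d, α j * R A j = 0).card ≤
          (univ.filter (fun A : Fin r → G => trace (H * ((word A (e : Fin r → ℤ) : G) :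
            Matrix (Fin k) (Fin k) (ZMod p))) = 0)).card := by
        apply card_le_card
        intro A hA
        rw [mem_filter] at hA ⊢
        refine ⟨mem_univ _, ?_⟩
        rw [← h3]
        exact hA.2 _
      have h6 : ((univ.filter fun A : Fin r → G =>
          ∀ d : ℤ, ∑ j with w j = d, α j * R A j = 0).card : ℝ) * p ≤
          2 * (m + 1) * (univ : Finset (Fin r → G)).card := by
        rw [ZMod.card] at h2
        have h7 := (Nat.mul_le_mul_right p h5).trans h2
        rw [card_univ, Fintype.card_fun, Fintype.card_fin]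
        exact_mod_cast h7
      have h8 : 2 * ((m : ℝ) + 1) / p ≤ (p : ℝ) ^ (-(1 / 2) + δ / 4) := by
        rw [div_le_iff₀ hp0]
        calc 2 * ((m : ℝ) + 1) ≤ (p : ℝ) ^ (1 / 2 : ℝ) := g4
          _ ≤ (p : ℝ) ^ (1 / 2 + δ / 4) :=
              Real.rpow_le_rpow_of_exponent_le hp1.le (by linarith)
          _ = (p : ℝ) ^ (-(1 / 2) + δ / 4) * p := by
              nth_rewrite 3 [← Real.rpow_one (p : ℝ)]
              rw [← Real.rpow_add hp0]
              congr 1
              ring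
      calc ((univ.filter fun A : Fin r → G =>
          ∀ d : ℤ, ∑ j with w j = d, α j * R A j = 0).card : ℝ)
          ≤ 2 * (m + 1) * (univ : Finset (Fin r → G)).card / p := by
            rw [le_div_iff₀ hp0]
            exact h6
        _ = (univ : Finset (Fin r → G)).card * (2 * ((m : ℝ) + 1) / p) := by ring
        _ ≤ _ := by gcongr)
    (fun j => M j.1 j.2.1 j.2.2) (fun j => L j.1 j.2.1 j.2.2) (fun j => (hL _ j.1.2 _ _).1)
    (fun j => (hL _ j.1.2 _ _).2)
    (by
      rw [hprodL (fun e a b => (L e a b : ℝ))]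
      refine le_trans (le_of_eq ?_) hvol
      congr 1
      push_cast
      ring)
  rw [hprodL (fun e a b => (L e a b : ℝ) / p), card_univ, Fintype.card_fun, Fintype.card_fin] at hm1
  rw [Nat.card_eq_fintype_card]
  push_cast at hm1
  refine hm1.trans ?_
  rw [← Set.ncard_coe_finset]
  have hsub : ((univ.filter (fun A : Fin r → G => ∀ j : κ, ∃ z : ℤ, M j.1 j.2.1 j.2.2 < z ∧
      z ≤ M j.1 j.2.1 j.2.2 + L j.1 j.2.1 j.2.2 ∧ (z : ZMod p) = R A j ∧
        ∀ n : ℤ, |(n : ℝ) - z| ≤ κ₀ * ff p →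
          ∃ l : ℕ, l.Prime ∧ (l : ℝ) ≤ (p : ℝ) ^ δ ∧ (l : ℤ) ∣ n) : Finset (Fin r → G)) :
          Set (Fin r → G)) ⊆
      {A : Fin r → G | ∀ e ∈ E, ∀ a b, ∃ z : ℤ,
        M e a b < z ∧ z ≤ M e a b + L e a b ∧
        (z : ZMod p) = ((word A e : G) : Matrix (Fin k) (Fin k) (ZMod p)) a b ∧
        ∀ n : ℤ, |(n : ℝ) - z| ≤ κ₀ * ff p →
          ∃ l : ℕ, l.Prime ∧ (l : ℝ) ≤ (p : ℝ) ^ δ ∧ (l : ℤ) ∣ n} := by
    intro A hA
    rw [mem_coe, mem_filter] at hA
    intro e he a b
    exact hA.2 (⟨e, he⟩, a, b)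
  exact_mod_cast Set.ncard_le_ncard hsub (Set.toFinite _)

end Pool.Agent.Run7.h246.MC
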