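import Pool.Agent.Run7.h246.MC.Cone
import Pool.Agent.Run7.h246.MC.Mat

/-!
# Record prime gaps in families of vectors which are stable under a large group of scalars (helper246)
-/

set_option autoImplicit false

open Polynomial Finset Filter

namespace Pool.Agent.Run7.h246.MC

open Pool.Agent.W147.PS (ff ev_pow)

section
variable (p : ℕ) [Fact p.Prime]

open scoped Classical in
/-- sums over a subgroup of the units are sums over powers -/
lemma sub_sum_eq (H : Subgroup (ZMod p)ˣ) (f : (ZMod p)ˣ → ℂ) :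
    ∑ s : (ZMod p)ˣ, f (s ^ H.index) = H.index * ∑ t ∈ univ.filter (· ∈ H), f t := by
  set d := H.index with hd
  have hd0 : 0 < d := Nat.pos_of_ne_zero H.index_ne_zero_of_finite
  have hmem : ∀ s : (ZMod p)ˣ, s ^ d ∈ H := fun s => H.pow_index_mem s
  -- the number of solutions of `s ^ d = t`
  have hle : ∀ t : (ZMod p)ˣ, (univ.filter fun s : (ZMod p)ˣ => s ^ d = t).card ≤ d := by
    intro t
    by_cases ht : ∃ s : (ZMod p)ˣ, s ^ d = t
    · obtain ⟨s₀, hs₀⟩ := ht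
      have h1 : (univ.filter fun s : (ZMod p)ˣ => s ^ d = t).card ≤
          (univ.filter fun s : (ZMod p)ˣ => s ^ d = 1).card := by
        apply card_le_card_of_injOn (fun s => s * s₀⁻¹)
        · intro s hs
          rw [mem_coe, mem_filter] at hs ⊢
          refine ⟨mem_univ _, ?_⟩
          rw [mul_pow, inv_pow, hs.2, hs₀, mul_inv_cancel]
        · intro s _ s' _ h
          exact mul_right_cancel h
      exact h1.trans (IsCyclic.card_pow_eq_one_le hd0)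
    · have h1 : (univ.filter fun s : (ZMod p)ˣ => s ^ d = t) = ∅ := by
        rw [filter_eq_empty_iff]
        intro s _ hs
        exact ht ⟨s, hs⟩
      rw [h1, card_empty]
      exact Nat.zero_le _
  have hsum : ∑ t ∈ univ.filter (· ∈ H), (univ.filter fun s : (ZMod p)ˣ => s ^ d = t).card =
      Fintype.card (ZMod p)ˣ := by
    rw [← card_univ]
    refine (card_eq_sum_card_fiberwise ?_).symm
    intro s _
    exact mem_coe.2 (mem_filter.2 ⟨mem_univ _, hmem s⟩)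
  have hcardH : (univ.filter (· ∈ H)).card = Nat.card H := by
    rw [Nat.card_eq_fintype_card, Fintype.card_subtype]
  have hGd : Fintype.card (ZMod p)ˣ = d * (univ.filter (· ∈ H)).card := by
    rw [hcardH, ← Nat.card_eq_fintype_card, hd, H.index_mul_card]
  have heq : ∀ t ∈ univ.filter (· ∈ H), (univ.filter fun s : (ZMod p)ˣ => s ^ d = t).card = d := by
    by_contra hcon
    push Not at hcon
    obtain ⟨t, ht, hne⟩ := hcon
    have h1 : ∑ t ∈ univ.filter (· ∈ H), (univ.filter fun s : (ZMod p)ˣ => s ^ d = t).card <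
        ∑ _t ∈ univ.filter (· ∈ H), d :=
      sum_lt_sum (fun t _ => hle t) ⟨t, ht, lt_of_le_of_ne (hle t) hne⟩
    rw [hsum, sum_const, smul_eq_mul, mul_comm, ← hGd] at h1
    exact lt_irrefl _ h1
  have h2 : ∑ s : (ZMod p)ˣ, f (s ^ d) = ∑ t ∈ univ.filter (· ∈ H),
      ∑ s ∈ univ.filter (fun s : (ZMod p)ˣ => s ^ d = t), f (s ^ d) := by
    rw [sum_fiberwise_of_maps_to]
    intro s _
    exact mem_filter.2 ⟨mem_univ _, hmem s⟩
  rw [h2, mul_sum]
  refine sum_congr rfl fun t ht => ?_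
  rw [sum_congr rfl (fun s hs => by rw [(mem_filter.1 hs).2] : ∀ s ∈ univ.filter
    (fun s : (ZMod p)ˣ => s ^ d = t), f (s ^ d) = f t), sum_const, heq t ht, nsmul_eq_mul]

open scoped Classical in
/-- the exponential sum of a Laurent polynomial over a subgroup of the units -/
lemma laurent_sub {κ : Type} [Fintype κ] [DecidableEq κ] (H : Subgroup (ZMod p)ˣ) (D : ℕ)
    (hD : 2 * (D * H.index) < p) (w : κ → ℤ)
    (hw0 : ∀ j, w j ≠ 0) (hwD : ∀ j, |w j| ≤ D) (c : κ → ZMod p) (d : ℤ)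
    (hc : ∑ j with w j = d, c j ≠ 0) :
    ‖∑ t ∈ univ.filter (· ∈ H),
      (ZMod.stdAddChar (∑ j, c j * ((t ^ w j : (ZMod p)ˣ) : ZMod p)) : ℂ)‖ ≤
      4 * D * Real.sqrt p := by
  have hd0 : 0 < H.index := Nat.pos_of_ne_zero H.index_ne_zero_of_finite
  have hdz : (H.index : ℤ) ≠ 0 := by exact_mod_cast hd0.ne'
  have h1 := laurent_sum p (D * H.index) hD (fun j => (H.index : ℤ) * w j)
    (fun j => mul_ne_zero hdz (hw0 j))
    (fun j => by
      rw [abs_mul, Nat.abs_cast]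
      push_cast
      rw [mul_comm]
      exact mul_le_mul_of_nonneg_right (hwD j) (by positivity)) c ((H.index : ℤ) * d) (by
        have h2 : (univ.filter fun j => (H.index : ℤ) * w j = (H.index : ℤ) * d) =
            univ.filter fun j => w j = d := by
          apply filter_congr
          intro j _
          exact mul_right_inj' hdz
        rw [h2]
        exact hc)
  have h3 := sub_sum_eq p H (fun t =>
    (ZMod.stdAddChar (∑ j, c j * ((t ^ w j : (ZMod p)ˣ) : ZMod p)) : ℂ))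
  have h4 : ∀ s : (ZMod p)ˣ, ∀ j, ((s ^ H.index) ^ w j : (ZMod p)ˣ) =
      s ^ ((H.index : ℤ) * w j) := by
    intro s j
    rw [zpow_mul, zpow_natCast]
  simp only [h4] at h3
  rw [h3, norm_mul, Complex.norm_natCast] at h1
  have hdr : (0 : ℝ) < H.index := by exact_mod_cast hd0
  refine le_of_mul_le_mul_left (h1.trans (le_of_eq ?_)) hdr
  push_cast
  ring

open scoped Classical in
/-- **the exponential sums of a family of vectors which is stable under a group of scalars** -/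
theorem sub_torus_sum {ι κ : Type} [Fintype κ] (H : Subgroup (ZMod p)ˣ) (S : Finset ι)
    (R : ι → κ → ZMod p) (D : ℕ) (hD : 2 * (D * H.index) < p) (w : κ → ℤ) (hw0 : ∀ j, w j ≠ 0)
    (hwD : ∀ j, |w j| ≤ D)
    (act : (ZMod p)ˣ → ι → ι) (hmem : ∀ t ∈ H, ∀ i ∈ S, act t i ∈ S)
    (hinj : ∀ t ∈ H, Set.InjOn (act t) S)
    (hact : ∀ t ∈ H, ∀ i ∈ S, ∀ j, R (act t i) j = ((t ^ w j : (ZMod p)ˣ) : ZMod p) * R i j)
    (α : κ → ZMod p) :
    ‖∑ i ∈ S, (ZMod.stdAddChar (∑ j, α j * R i j) : ℂ)‖ ≤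
      S.card * (4 * D * Real.sqrt p / Nat.card H) +
        ((S.filter fun i => ∀ d : ℤ, ∑ j with w j = d, α j * R i j = 0).card : ℝ) := by
  have hcardH : (univ.filter (· ∈ H)).card = Nat.card H := by
    rw [Nat.card_eq_fintype_card, Fintype.card_subtype]
  have hH0 : (0 : ℝ) < Nat.card H := by exact_mod_cast Nat.card_pos
  have h1 : ∀ t ∈ univ.filter (· ∈ H), ∑ i ∈ S, (ZMod.stdAddChar (∑ j, α j * R i j) : ℂ) =
      ∑ i ∈ S, (ZMod.stdAddChar (∑ j, (α j * R i j) * ((t ^ w j : (ZMod p)ˣ) : ZMod p)) : ℂ) := by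
    intro t ht
    have htH : t ∈ H := (mem_filter.1 ht).2
    have himg : S.image (act t) = S := by
      apply eq_of_subset_of_card_le
      · intro i hi
        obtain ⟨i', hi', rfl⟩ := mem_image.1 hi
        exact hmem t htH i' hi'
      · rw [card_image_of_injOn (hinj t htH)]
    conv_lhs => rw [← himg]
    rw [sum_image (fun i hi i' hi' h => hinj t htH hi hi' h)]
    refine sum_congr rfl fun i hi => ?_
    refine congrArg (fun z => (ZMod.stdAddChar z : ℂ)) (sum_congr rfl fun j _ => ?_)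
    rw [hact t htH i hi j]
    ring
  have h2 : (Nat.card H : ℂ) * ∑ i ∈ S, (ZMod.stdAddChar (∑ j, α j * R i j) : ℂ) =
      ∑ i ∈ S, ∑ t ∈ univ.filter (· ∈ H),
        (ZMod.stdAddChar (∑ j, (α j * R i j) * ((t ^ w j : (ZMod p)ˣ) : ZMod p)) : ℂ) := by
    rw [Finset.sum_comm]
    have h1' : ∑ t ∈ univ.filter (· ∈ H), ∑ i ∈ S,
        (ZMod.stdAddChar (∑ j, (α j * R i j) * ((t ^ w j : (ZMod p)ˣ) : ZMod p)) : ℂ) =
        ∑ _t ∈ univ.filter (· ∈ H), ∑ i ∈ S, (ZMod.stdAddChar (∑ j, α j * R i j) : ℂ) :=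
      sum_congr rfl fun t ht => (h1 t ht).symm
    rw [h1', sum_const, nsmul_eq_mul, hcardH]
  set F := S.filter fun i => ∀ d : ℤ, ∑ j with w j = d, α j * R i j = 0 with hF
  have h3 : ‖∑ i ∈ S, ∑ t ∈ univ.filter (· ∈ H),
        (ZMod.stdAddChar (∑ j, (α j * R i j) * ((t ^ w j : (ZMod p)ˣ) : ZMod p)) : ℂ)‖ ≤
      S.card * (4 * D * Real.sqrt p) + F.card * (Nat.card H : ℝ) := by
    refine (norm_sum_le _ _).trans ?_
    have h4 : ∀ i ∈ S, ‖∑ t ∈ univ.filter (· ∈ H),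
        (ZMod.stdAddChar (∑ j, (α j * R i j) * ((t ^ w j : (ZMod p)ˣ) : ZMod p)) : ℂ)‖ ≤
        4 * D * Real.sqrt p + (if i ∈ F then (Nat.card H : ℝ) else 0) := by
      intro i hi
      by_cases hiF : i ∈ F
      · rw [if_pos hiF]
        have h5 : ‖∑ t ∈ univ.filter (· ∈ H),
          (ZMod.stdAddChar (∑ j, (α j * R i j) * ((t ^ w j : (ZMod p)ˣ) : ZMod p)) : ℂ)‖ ≤
            (Nat.card H : ℝ) := by
          refine (norm_sum_le _ _).trans ?_
          rw [← hcardH, ← nsmul_one, ← sum_const]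
          · refine sum_le_sum fun t _ => ?_
            rw [AddChar.norm_apply]
        have h6 : 0 ≤ 4 * (D : ℝ) * Real.sqrt p := by positivity
        linarith
      · rw [if_neg hiF, add_zero]
        have h5 : ∃ d : ℤ, ∑ j with w j = d, α j * R i j ≠ 0 := by
          by_contra hcon
          push Not at hcon
          exact hiF (mem_filter.2 ⟨hi, hcon⟩)
        obtain ⟨d, hd⟩ := h5
        exact laurent_sub p H D hD w hw0 hwD (fun j => α j * R i j) d hd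
    refine (sum_le_sum h4).trans (le_of_eq ?_)
    rw [sum_add_distrib, sum_const, nsmul_eq_mul, ← sum_filter, sum_const, nsmul_eq_mul]
    congr 3
    rw [filter_mem_eq_inter, inter_eq_right.2 (filter_subset _ _)]
  rw [← h2, norm_mul, Complex.norm_natCast] at h3
  have h8 : ‖∑ i ∈ S, (ZMod.stdAddChar (∑ j, α j * R i j) : ℂ)‖ ≤
      (S.card * (4 * D * Real.sqrt p) + F.card * (Nat.card H : ℝ)) / Nat.card H := by
    rw [le_div_iff₀ hH0, mul_comm]
    exact h3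
  refine h8.trans (le_of_eq ?_)
  field_simp

open scoped Classical in
/-- hyperplanes -/
lemma card_plane {n : ℕ} (w : Fin n → ℤ) (S : Finset (Fin n → ZMod p))
    (α : Fin n → ZMod p) (hα : α ≠ 0) :
    ((S.filter fun x => ∀ d : ℤ, ∑ j with w j = d, α j * x j = 0).card : ℝ) ≤
      (p : ℝ) ^ ((n : ℝ) - 1) := by
  have hp : p.Prime := Fact.out
  have hp0 : (0 : ℝ) < p := by exact_mod_cast hp.pos
  have hj : ∃ j, α j ≠ 0 := by
    by_contra hcon
    push Not at hcon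
    exact hα (funext hcon)
  obtain ⟨j₀, hj₀⟩ := hj
  have h1 : ∀ x : Fin n → ZMod p, (∀ d : ℤ, ∑ j with w j = d, α j * x j = 0) →
      ∑ j, α j * x j = 0 := by
    intro x hx
    rw [← sum_fiberwise_of_maps_to (s := univ) (t := univ.image w) (g := w)
      (fun j _ => mem_image_of_mem _ (mem_univ j))]
    exact sum_eq_zero fun d _ => hx d
  have h2 := line_count (F := ZMod p) (V := Fin n → ZMod p)
    (fun x => ∑ j, α j * x j = 0) (Pi.single j₀ 1) 1 (by
      intro A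
      rw [card_le_one]
      intro s hs s' hs'
      rw [mem_filter] at hs hs'
      have e : ∀ s : ZMod p, ∑ j, α j * (A + s • (Pi.single j₀ 1 : Fin n → ZMod p)) j =
          ∑ j, α j * A j + s * α j₀ := by
        intro s
        simp only [Pi.add_apply, Pi.smul_apply, smul_eq_mul, mul_add, sum_add_distrib]
        congr 1
        rw [sum_eq_single j₀]
        · rw [Pi.single_eq_same]
          ring
        · intro j _ hj
          rw [Pi.single_eq_of_ne hj]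
          ring
        · intro h
          exact absurd (mem_univ _) h
      have h3 := hs.2
      have h4 := hs'.2
      rw [e] at h3 h4
      have h5 : (s - s') * α j₀ = 0 := by linear_combination h3 - h4
      rcases mul_eq_zero.1 h5 with h6 | h6
      · exact sub_eq_zero.1 h6
      · exact absurd h6 hj₀)
  rw [ZMod.card, one_mul, Fintype.card_fun, ZMod.card, Fintype.card_fin] at h2
  have h3 : ((S.filter fun x => ∀ d : ℤ, ∑ j with w j = d, α j * x j = 0).card : ℝ) * p ≤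
      (p : ℝ) ^ n := by
    have h4 : (S.filter fun x => ∀ d : ℤ, ∑ j with w j = d, α j * x j = 0).card ≤
        (univ.filter fun x : Fin n → ZMod p => ∑ j, α j * x j = 0).card := by
      apply card_le_card
      intro x hx
      exact mem_filter.2 ⟨mem_univ _, h1 x (mem_filter.1 hx).2⟩
    exact_mod_cast (Nat.mul_le_mul_right p h4).trans h2
  rw [Real.rpow_sub_one hp0.ne', Real.rpow_natCast, le_div_iff₀ hp0]
  exact h3

end

open scoped Classical in
/-- **Record prime gaps in sets of vectors which are stable under a large group of scalars.** -/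
theorem sub_main (n : ℕ) (hn : 1 ≤ n) (ε δ : ℝ) (hε0 : 0 ≤ ε) (hδ : 0 < δ) (hδ1 : δ ≤ 1) :
    ∃ κ₀ : ℝ, 0 < κ₀ ∧ ∃ p₀ : ℕ, ∀ p : ℕ, p.Prime → p₀ ≤ p →
    ∀ H : Subgroup (ZMod p)ˣ, (p : ℝ) ^ (1 / 2 + ε) ≤ 2 * Nat.card H →
    ∀ w : Fin n → ℤ, (∀ j, w j ≠ 0 ∧ |(w j : ℝ)| ≤ (p : ℝ) ^ (δ / 4)) →
    ∀ S : Finset (Fin n → ZMod p), S.Nonempty →
    (∀ t ∈ H, ∀ x ∈ S, (fun j => ((t ^ w j : (ZMod p)ˣ) : ZMod p) * x j) ∈ S) →
    ((p : ℝ) ^ ((n : ℝ) - 1 + ε) ≤ S.card ∨ ∀ α : Fin n → ZMod p, α ≠ 0 →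
      ((S.filter fun x => ∀ d : ℤ, ∑ j with w j = d, α j * x j = 0).card : ℝ) ≤
        S.card * (p : ℝ) ^ (-ε)) →
    ∀ (M : Fin n → ℤ) (L : Fin n → ℕ), (∀ j, (p : ℝ) ^ δ ≤ L j ∧ L j ≤ p) →
      (p : ℝ) ^ ((n : ℝ) - ε + δ) ≤ ∏ j, (L j : ℝ) →
    (p : ℝ) ^ (-δ) * (S.card * ∏ j, ((L j : ℝ) / p)) ≤
      ((S.filter (fun x => ∀ j, ∃ z : ℤ, M j < z ∧ z ≤ M j + L j ∧ (z : ZMod p) = x j ∧
        ∀ m : ℤ, |(m : ℝ) - z| ≤ κ₀ * ff p →
          ∃ l : ℕ, l.Prime ∧ (l : ℝ) ≤ (p : ℝ) ^ δ ∧ (l : ℤ) ∣ m)).card : ℝ) := by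
  obtain ⟨κ₀, hκ, p₁, hmain⟩ := main_fintype n hn (ε - δ / 2) (δ / 2) (by linarith) (by linarith)
  have tc : Tendsto (fun q : ℕ => (q : ℝ)) atTop atTop := tendsto_natCast_atTop_atTop
  have hev := ((tc.eventually (ev_pow (δ / 4) (δ / 2) 32 (by linarith))).and
    (eventually_ge_atTop p₁)).and (tc.eventually (ev_pow (δ / 4) (1 / 2) 5 (by linarith)))
  obtain ⟨p₀, hp₀⟩ := eventually_atTop.mp hev
  refine ⟨κ₀, hκ, p₀, ?_⟩
  intro p hp hpp H hH w hw S hS hst hcon M L hL hvol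
  have : Fact p.Prime := ⟨hp⟩
  obtain ⟨⟨g1, g3⟩, g4⟩ := hp₀ p hpp
  have hp1 : (1 : ℝ) < p := by exact_mod_cast hp.one_lt
  have hp2 : (2 : ℝ) ≤ p := by exact_mod_cast hp.two_le
  have hp0 : (0 : ℝ) < p := by linarith
  have hmono : ∀ x y : ℝ, x ≤ y → (p : ℝ) ^ x ≤ (p : ℝ) ^ y := fun x y h =>
    Real.rpow_le_rpow_of_exponent_le hp1.le h
  have hcon' : ∀ α : Fin n → ZMod p, α ≠ 0 →
      ((S.filter fun x => ∀ d : ℤ, ∑ j with w j = d, α j * x j = 0).card : ℝ) ≤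
        S.card * (p : ℝ) ^ (-ε) := by
    rcases hcon with h | h
    · intro α hα
      refine (card_plane p w S α hα).trans ?_
      calc (p : ℝ) ^ ((n : ℝ) - 1) = (p : ℝ) ^ ((n : ℝ) - 1 + ε) * (p : ℝ) ^ (-ε) := by
            rw [← Real.rpow_add hp0]
            congr 1
            ring
        _ ≤ _ := mul_le_mul_of_nonneg_right h (by positivity)
    · exact h
  have hE0 : (0 : ℝ) ≤ (p : ℝ) ^ (δ / 4) := by positivity
  set D : ℕ := ⌊(p : ℝ) ^ (δ / 4)⌋₊ with hDdef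
  have hDp : (D : ℝ) ≤ (p : ℝ) ^ (δ / 4) := Nat.floor_le hE0
  have hHpos : (0 : ℝ) < Nat.card H := by exact_mod_cast Nat.card_pos
  -- the index is small
  have hidx : (H.index : ℝ) * Nat.card H = (p : ℝ) - 1 := by
    have h1 := H.index_mul_card
    rw [Nat.card_eq_fintype_card (α := (ZMod p)ˣ), ZMod.card_units_eq_totient,
      Nat.totient_prime hp] at h1
    rw [← Nat.cast_mul, h1, Nat.cast_sub hp.one_lt.le, Nat.cast_one]
  have hsq : (p : ℝ) ^ (1 / 2 : ℝ) * (p : ℝ) ^ (1 / 2 : ℝ) = p := by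
    rw [← Real.rpow_add hp0]
    norm_num
  have hhalf : (p : ℝ) ^ (1 / 2 : ℝ) ≤ 2 * Nat.card H := (hmono _ _ (by linarith)).trans hH
  have hs0 : (0 : ℝ) < (p : ℝ) ^ (1 / 2 : ℝ) := Real.rpow_pos_of_pos hp0 _
  have hidx2 : (H.index : ℝ) ≤ 2 * (p : ℝ) ^ (1 / 2 : ℝ) := by
    have h1 : (H.index : ℝ) * (p : ℝ) ^ (1 / 2 : ℝ) ≤
        (2 * (p : ℝ) ^ (1 / 2 : ℝ)) * (p : ℝ) ^ (1 / 2 : ℝ) := by
      calc (H.index : ℝ) * (p : ℝ) ^ (1 / 2 : ℝ) ≤ H.index * (2 * Nat.card H) := by gcongr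
        _ = 2 * ((p : ℝ) - 1) := by rw [← hidx]; ring
        _ ≤ 2 * p := by linarith
        _ = _ := by rw [mul_assoc, hsq]
    exact le_of_mul_le_mul_right h1 hs0
  have hDN : 2 * (D * H.index) < p := by
    have h2 : 2 * ((D : ℝ) * H.index) < p := by
      calc 2 * ((D : ℝ) * H.index) ≤ 2 * ((p : ℝ) ^ (δ / 4) * (2 * (p : ℝ) ^ (1 / 2 : ℝ))) := by
            gcongr
        _ = (4 * (p : ℝ) ^ (δ / 4)) * (p : ℝ) ^ (1 / 2 : ℝ) := by ring
        _ < (5 * (p : ℝ) ^ (δ / 4)) * (p : ℝ) ^ (1 / 2 : ℝ) := by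
            have : 0 < (p : ℝ) ^ (δ / 4) := Real.rpow_pos_of_pos hp0 _
            apply mul_lt_mul_of_pos_right _ hs0
            linarith
        _ ≤ (p : ℝ) ^ (1 / 2 : ℝ) * (p : ℝ) ^ (1 / 2 : ℝ) := by gcongr
        _ = p := hsq
    exact_mod_cast h2
  have hScard : (0 : ℝ) < S.card := by exact_mod_cast hS.card_pos
  have hwD : ∀ j, |w j| ≤ (D : ℤ) := by
    intro j
    have h1 : ((w j).natAbs : ℝ) ≤ (p : ℝ) ^ (δ / 4) := by
      rw [Nat.cast_natAbs, Int.cast_abs]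
      exact (hw j).2
    have h2 := Nat.le_floor h1
    rw [Int.abs_eq_natAbs]
    exact_mod_cast h2
  have hsum : ∀ α : Fin n → ZMod p, α ≠ 0 →
      ‖∑ i ∈ S, (ZMod.stdAddChar (∑ j, α j * i j) : ℂ)‖ ≤
        S.card * (p : ℝ) ^ (-(ε - δ / 2)) := by
    intro α hα
    have h1 := sub_torus_sum p H S (fun x => x) D hDN w (fun j => (hw j).1) hwD
      (fun t x j => ((t ^ w j : (ZMod p)ˣ) : ZMod p) * x j) hst
      (fun t _ x _ y _ hxy => funext fun j => mul_left_cancel₀ (Units.ne_zero _) (congrFun hxy j))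
      (fun _ _ _ _ _ => rfl) α
    have h2 := hcon' α hα
    have e1 : Real.sqrt p = (p : ℝ) ^ (1 / 2 : ℝ) := Real.sqrt_eq_rpow _
    have e0 : (0 : ℝ) < (p : ℝ) ^ (-ε) := Real.rpow_pos_of_pos hp0 _
    have e2 : (p : ℝ) ^ (-(ε - δ / 2)) = (p : ℝ) ^ (-ε) * (p : ℝ) ^ (δ / 2) := by
      rw [← Real.rpow_add hp0]
      congr 1
      ring
    have h3 : 4 * (D : ℝ) * Real.sqrt p / Nat.card H ≤ (p : ℝ) ^ (-(ε - δ / 2)) / 2 := by
      rw [div_le_div_iff₀ hHpos (by norm_num), e1, e2]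
      calc 4 * (D : ℝ) * (p : ℝ) ^ (1 / 2 : ℝ) * 2
          ≤ 8 * (p : ℝ) ^ (δ / 4) * (p : ℝ) ^ (1 / 2 : ℝ) := by
            have := mul_le_mul_of_nonneg_right hDp hs0.le
            linarith
        _ = 8 * (p : ℝ) ^ (δ / 4) * ((p : ℝ) ^ (-ε) * (p : ℝ) ^ (1 / 2 + ε)) := by
            rw [← Real.rpow_add hp0]
            congr 2
            ring
        _ ≤ 8 * (p : ℝ) ^ (δ / 4) * ((p : ℝ) ^ (-ε) * (2 * Nat.card H)) := by gcongr
        _ = (32 * (p : ℝ) ^ (δ / 4)) / 2 * ((p : ℝ) ^ (-ε) * Nat.card H) := by ring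
        _ ≤ (p : ℝ) ^ (δ / 2) * ((p : ℝ) ^ (-ε) * Nat.card H) := by
            apply mul_le_mul_of_nonneg_right _ (by positivity)
            have : 0 < (p : ℝ) ^ (δ / 2) := Real.rpow_pos_of_pos hp0 _
            linarith
        _ = _ := by ring
    have h4 : (p : ℝ) ^ (-ε) ≤ (p : ℝ) ^ (-(ε - δ / 2)) / 2 := by
      have e3 : (1 : ℝ) ≤ (p : ℝ) ^ (δ / 4) := Real.one_le_rpow hp1.le (by positivity)
      have e4 : (2 : ℝ) ≤ (p : ℝ) ^ (δ / 2) := by linarith
      rw [e2]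
      have := mul_le_mul_of_nonneg_left e4 e0.le
      linarith
    calc _ ≤ _ := h1
      _ ≤ S.card * ((p : ℝ) ^ (-(ε - δ / 2)) / 2) + S.card * ((p : ℝ) ^ (-(ε - δ / 2)) / 2) := by
          have e5 := mul_le_mul_of_nonneg_left h3 hScard.le
          have e6 := mul_le_mul_of_nonneg_left h4 hScard.le
          linarith
      _ = _ := by ring
  have hm := hmain p g3 (Fin n) (Fintype.card_fin n) (Fin n → ZMod p) S (fun x => x) hS hsum M L
    (fun j => (hL j).2) (fun j => (hmono _ _ (by linarith)).trans (hL j).1)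
    ((hmono _ _ (by linarith)).trans hvol)
  have hPi : 0 ≤ ∏ j, ((L j : ℝ) / p) := prod_nonneg fun j _ => by positivity
  have hlow : (p : ℝ) ^ (-δ) * (S.card * ∏ j, ((L j : ℝ) / p)) ≤
      (p : ℝ) ^ (-(δ / 2)) * (S.card * ∏ j, ((L j : ℝ) / p)) := by
    apply mul_le_mul_of_nonneg_right (hmono _ _ (by linarith)) (by positivity)
  refine hlow.trans (hm.trans ?_)
  have h5 : (S.filter (fun i => ∀ j, ∃ z : ℤ, M j < z ∧ z ≤ M j + L j ∧ (z : ZMod p) = i j ∧
        ∀ m : ℤ, |(m : ℝ) - z| ≤ κ₀ * ff p →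
          ∃ l : ℕ, l.Prime ∧ (l : ℝ) ≤ (p : ℝ) ^ (δ / 2) ∧ (l : ℤ) ∣ m)) ⊆
      (S.filter (fun i => ∀ j, ∃ z : ℤ, M j < z ∧ z ≤ M j + L j ∧ (z : ZMod p) = i j ∧
        ∀ m : ℤ, |(m : ℝ) - z| ≤ κ₀ * ff p →
          ∃ l : ℕ, l.Prime ∧ (l : ℝ) ≤ (p : ℝ) ^ δ ∧ (l : ℤ) ∣ m)) := by
    intro i hi
    rw [mem_filter] at hi ⊢
    refine ⟨hi.1, fun j => ?_⟩
    obtain ⟨z, z1, z2, z3, z4⟩ := hi.2 j
    refine ⟨z, z1, z2, z3, fun m hmz => ?_⟩
    obtain ⟨l, l1, l2, l3⟩ := z4 m hmz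
    exact ⟨l, l1, l2.trans (hmono _ _ (by linarith)), l3⟩
  refine le_trans (le_of_eq ?_) (Nat.cast_le.2 (card_le_card h5))
  congr!

end Pool.Agent.Run7.h246.MC
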