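import Pool.Agent.Run7.h246.MC.Torus

/-!
# Record prime gaps at the points of weighted cones modulo a prime (helper246)
-/

set_option autoImplicit false

open Polynomial Finset Filter

namespace Pool.Agent.Run7.h246.MC

open Pool.Agent.N647.FG (Far fam main)
open Pool.Agent.W147.PS (ff ev_pow)

open scoped Classical in
/-- the criterion of helper647 for families indexed by an arbitrary finite set of coordinates,
with the count of the members of the family -/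
theorem main_fintype (n : ℕ) (hn : 1 ≤ n) (ε δ : ℝ) (hδ : 0 < δ) (hδ1 : δ ≤ 1) :
    ∃ κ₀ : ℝ, 0 < κ₀ ∧ ∃ p₀ : ℕ, ∀ (p : ℕ) [Fact p.Prime], p₀ ≤ p →
    ∀ (κ : Type) [Fintype κ], Fintype.card κ = n →
    ∀ (ι : Type) (S : Finset ι) (R : ι → κ → ZMod p), S.Nonempty →
    (∀ α : κ → ZMod p, α ≠ 0 →
      ‖∑ i ∈ S, (ZMod.stdAddChar (∑ j, α j * R i j) : ℂ)‖ ≤ S.card * (p : ℝ) ^ (-ε)) →
    ∀ (M : κ → ℤ) (L : κ → ℕ), (∀ j, L j ≤ p) → (∀ j, (p : ℝ) ^ δ ≤ L j) →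
      (p : ℝ) ^ ((n : ℝ) - ε + δ) ≤ ∏ j, (L j : ℝ) →
    (p : ℝ) ^ (-δ) * (S.card * ∏ j, ((L j : ℝ) / p)) ≤
      ((S.filter (fun i => ∀ j, ∃ z : ℤ, M j < z ∧ z ≤ M j + L j ∧ (z : ZMod p) = R i j ∧
        ∀ m : ℤ, |(m : ℝ) - z| ≤ κ₀ * ff p →
          ∃ l : ℕ, l.Prime ∧ (l : ℝ) ≤ (p : ℝ) ^ δ ∧ (l : ℤ) ∣ m)).card : ℝ) := by
  obtain ⟨κ₀, hκ, p₀, hmain⟩ := main n hn ε δ hδ hδ1
  refine ⟨κ₀, hκ, p₀, ?_⟩
  intro p _ hp κ _ hcard ι S R hS hsum M L hLp hLδ hvol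
  let e : Fin n ≃ κ := (Fintype.equivFinOfCardEq hcard).symm
  have hm := hmain p hp ι S (fun i j => R i (e j)) hS (by
    intro α hα
    have h1 := hsum (fun j => α (e.symm j)) (by
      intro h
      apply hα
      funext j
      have := congrFun h (e j)
      simpa using this)
    have h2 : ∀ i, ∑ j, α (e.symm j) * R i j = ∑ j, α j * R i (e j) := by
      intro i
      rw [← e.sum_comp]
      simp
    simp only [h2] at h1
    exact h1) (fun j => M (e j)) (fun j => L (e j)) (fun j => hLp _) (fun j => hLδ _) (by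
      rw [e.prod_comp (fun j => (L j : ℝ))]
      exact hvol)
  rw [e.prod_comp (fun j => (L j : ℝ) / p)] at hm
  refine hm.trans ?_
  set s := (fam S (fun i j => R i (e j)) (fun j => M (e j)) (fun j => L (e j))).filter
    (fun z => ∀ j, Far (z.2 j) (κ₀ * ff p) ((p : ℝ) ^ δ)) with hs
  have hmem : ∀ w ∈ s, w.1 ∈ S ∧ (∀ j, M (e j) < w.2 j ∧ w.2 j ≤ M (e j) + L (e j) ∧
      ((w.2 j : ℤ) : ZMod p) = R w.1 (e j)) ∧
      ∀ j, Far (w.2 j) (κ₀ * ff p) ((p : ℝ) ^ δ) := by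
    intro w hw
    rw [hs, mem_filter] at hw
    obtain ⟨hw1, hw2⟩ := hw
    unfold fam at hw1
    rw [mem_sigma, Fintype.mem_piFinset] at hw1
    refine ⟨hw1.1, fun j => ?_, hw2⟩
    have := hw1.2 j
    rw [mem_filter, mem_Ioc] at this
    exact ⟨this.1.1, this.1.2, this.2⟩
  have hinj : Set.InjOn (fun w : (Σ _ : ι, (Fin n → ℤ)) => w.1) (s : Set _) := by
    intro w hw w' hw' h
    obtain ⟨h1, h2, -⟩ := hmem w hw
    obtain ⟨h1', h2', -⟩ := hmem w' hw'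
    obtain ⟨x, z⟩ := w
    obtain ⟨x', z'⟩ := w'
    simp only at h h2 h2'
    subst h
    congr 1
    funext j
    obtain ⟨e1, e2, e3⟩ := h2 j
    obtain ⟨e1', e2', e3'⟩ := h2' j
    have e4 : ((z j - z' j : ℤ) : ZMod p) = 0 := by
      push_cast
      rw [e3, e3', sub_self]
    rw [ZMod.intCast_zmod_eq_zero_iff_dvd] at e4
    have hLpj := hLp (e j)
    have e5 : |z j - z' j| < (p : ℤ) := by
      rw [abs_lt]
      constructor <;> omega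
    have := Int.eq_zero_of_abs_lt_dvd e4 e5
    omega
  have h1 : s.card = (s.image (fun w : (Σ _ : ι, (Fin n → ℤ)) => w.1)).card :=
    (card_image_of_injOn hinj).symm
  rw [h1]
  have h2 : s.image (fun w : (Σ _ : ι, (Fin n → ℤ)) => w.1) ⊆
      S.filter (fun i => ∀ j, ∃ z : ℤ, M j < z ∧ z ≤ M j + L j ∧ (z : ZMod p) = R i j ∧
        ∀ m : ℤ, |(m : ℝ) - z| ≤ κ₀ * ff p →
          ∃ l : ℕ, l.Prime ∧ (l : ℝ) ≤ (p : ℝ) ^ δ ∧ (l : ℤ) ∣ m) := by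
    intro x hx
    rw [mem_image] at hx
    obtain ⟨w, hw, rfl⟩ := hx
    obtain ⟨e1, e2, e3⟩ := hmem w hw
    rw [mem_filter]
    refine ⟨e1, fun j => ?_⟩
    have h4 := e2 (e.symm j)
    have h5 := e3 (e.symm j)
    rw [e.apply_symm_apply] at h4
    exact ⟨w.2 (e.symm j), h4.1, h4.2.1, h4.2.2, h5⟩
  exact_mod_cast card_le_card h2

open scoped Classical in
/-- **Record prime gaps at the points of weighted cones modulo a prime**, for indexed families. -/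
theorem cone_main (n : ℕ) (hn : 1 ≤ n) (δ : ℝ) (hδ : 0 < δ) (hδ1 : δ ≤ 1) :
    ∃ κ₀ : ℝ, 0 < κ₀ ∧ ∃ p₀ : ℕ, ∀ (p : ℕ) [Fact p.Prime], p₀ ≤ p →
    ∀ D : ℕ, (D : ℝ) ≤ (p : ℝ) ^ (δ / 4) →
    ∀ (κ : Type) [Fintype κ], Fintype.card κ = n →
    ∀ (w : κ → ℤ), (∀ j, w j ≠ 0) → (∀ j, |w j| ≤ D) →
    ∀ (ι : Type) (S : Finset ι) (R : ι → κ → ZMod p) (act : (ZMod p)ˣ → ι → ι), S.Nonempty →
    (∀ t, ∀ i ∈ S, act t i ∈ S) → (∀ t, Set.InjOn (act t) S) →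
    (∀ t, ∀ i ∈ S, ∀ j, R (act t i) j = ((t ^ w j : (ZMod p)ˣ) : ZMod p) * R i j) →
    (∀ α : κ → ZMod p, α ≠ 0 →
      ((S.filter fun i => ∀ d : ℤ, ∑ j with w j = d, α j * R i j = 0).card : ℝ) ≤
        S.card * (p : ℝ) ^ (-(1 / 2) + δ / 4)) →
    ∀ (M : κ → ℤ) (L : κ → ℕ), (∀ j, (p : ℝ) ^ δ ≤ L j) → (∀ j, L j ≤ p) →
      (p : ℝ) ^ ((n : ℝ) - 1 / 2 + δ) ≤ ∏ j, (L j : ℝ) →
    (p : ℝ) ^ (-δ) * (S.card * ∏ j, ((L j : ℝ) / p)) ≤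
      ((S.filter (fun i => ∀ j, ∃ z : ℤ, M j < z ∧ z ≤ M j + L j ∧ (z : ZMod p) = R i j ∧
        ∀ m : ℤ, |(m : ℝ) - z| ≤ κ₀ * ff p →
          ∃ l : ℕ, l.Prime ∧ (l : ℝ) ≤ (p : ℝ) ^ δ ∧ (l : ℤ) ∣ m)).card : ℝ) := by
  obtain ⟨κ₀, hκ, p₁, hmain⟩ := main_fintype n hn (1 / 2 - δ / 2) (δ / 2) (by linarith) (by linarith)
  have tc : Tendsto (fun q : ℕ => (q : ℝ)) atTop atTop := tendsto_natCast_atTop_atTop
  have hev := ((tc.eventually (ev_pow (δ / 4) (δ / 2) 16 (by linarith))).and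
    (eventually_ge_atTop p₁)).and (tc.eventually (ev_pow (δ / 4) 1 3 (by linarith)))
  obtain ⟨p₀, hp₀⟩ := eventually_atTop.mp hev
  refine ⟨κ₀, hκ, p₀, ?_⟩
  intro p hpf hpp D hDp κ _ hcard w hw0 hwD ι S R act hS hmem hinj hact hcon M L hLδ hLp hvol
  obtain ⟨⟨g1, g3⟩, g4⟩ := hp₀ p hpp
  have hp : p.Prime := Fact.out
  have hp1 : (1 : ℝ) < p := by exact_mod_cast hp.one_lt
  have hp2 : (2 : ℝ) ≤ p := by exact_mod_cast hp.two_le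
  have hp0 : (0 : ℝ) < p := by linarith
  have hmono : ∀ x y : ℝ, x ≤ y → (p : ℝ) ^ x ≤ (p : ℝ) ^ y := fun x y h =>
    Real.rpow_le_rpow_of_exponent_le hp1.le h
  have hDN : 2 * D < p := by
    rw [Real.rpow_one] at g4
    have h1 : (1 : ℝ) ≤ (p : ℝ) ^ (δ / 4) := Real.one_le_rpow hp1.le (by positivity)
    have h2 : 2 * (D : ℝ) < p := by linarith
    exact_mod_cast h2
  have hScard : (0 : ℝ) < S.card := by exact_mod_cast hS.card_pos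
  have hsum : ∀ α : κ → ZMod p, α ≠ 0 →
      ‖∑ i ∈ S, (ZMod.stdAddChar (∑ j, α j * R i j) : ℂ)‖ ≤
        S.card * (p : ℝ) ^ (-(1 / 2 - δ / 2)) := by
    intro α hα
    have h1 := torus_sum p S R D hDN w hw0 hwD act hmem hinj hact α
    have h2 := hcon α hα
    have h3 : 4 * (D : ℝ) * Real.sqrt p / (p - 1) ≤ (p : ℝ) ^ (-(1 / 2 - δ / 2)) / 2 := by
      have e1 : Real.sqrt p = (p : ℝ) ^ (1 / 2 : ℝ) := Real.sqrt_eq_rpow _
      have e2 : (p : ℝ) / 2 ≤ p - 1 := by linarith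
      have e3 : (p : ℝ) ^ (-(1 / 2 - δ / 2)) * p = (p : ℝ) ^ (δ / 2) * (p : ℝ) ^ (1 / 2 : ℝ) := by
        rw [← Real.rpow_add hp0]
        nth_rewrite 2 [← Real.rpow_one (p : ℝ)]
        rw [← Real.rpow_add hp0]
        congr 1
        ring
      rw [div_le_div_iff₀ (by linarith) (by norm_num), e1]
      have e4 : (0 : ℝ) ≤ (p : ℝ) ^ (-(1 / 2 - δ / 2)) := by positivity
      have e5 : (0 : ℝ) ≤ (p : ℝ) ^ (1 / 2 : ℝ) := by positivity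
      calc 4 * (D : ℝ) * (p : ℝ) ^ (1 / 2 : ℝ) * 2 = (16 * D) * (p : ℝ) ^ (1 / 2 : ℝ) / 2 := by ring
        _ ≤ (16 * (p : ℝ) ^ (δ / 4)) * (p : ℝ) ^ (1 / 2 : ℝ) / 2 := by gcongr
        _ ≤ (p : ℝ) ^ (δ / 2) * (p : ℝ) ^ (1 / 2 : ℝ) / 2 := by gcongr
        _ = (p : ℝ) ^ (-(1 / 2 - δ / 2)) * (p / 2) := by rw [← e3]; ring
        _ ≤ _ := by gcongr
    have h4 : (p : ℝ) ^ (-(1 / 2) + δ / 4) ≤ (p : ℝ) ^ (-(1 / 2 - δ / 2)) / 2 := by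
      have e1 : (p : ℝ) ^ (-(1 / 2) + δ / 4) = (p : ℝ) ^ (-(1 / 2 : ℝ)) * (p : ℝ) ^ (δ / 4) :=
        Real.rpow_add hp0 _ _
      have e2 : (p : ℝ) ^ (-(1 / 2 - δ / 2)) = (p : ℝ) ^ (-(1 / 2 : ℝ)) * (p : ℝ) ^ (δ / 2) := by
        rw [← Real.rpow_add hp0]
        congr 1
        ring
      rw [e1, e2]
      have e3 : (0 : ℝ) ≤ (p : ℝ) ^ (-(1 / 2 : ℝ)) := by positivity
      have e4 : (0 : ℝ) ≤ (p : ℝ) ^ (δ / 4) := by positivity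
      nlinarith
    calc _ ≤ _ := h1
      _ ≤ S.card * ((p : ℝ) ^ (-(1 / 2 - δ / 2)) / 2) + S.card * ((p : ℝ) ^ (-(1 / 2 - δ / 2)) / 2) := by
          have e1 := mul_le_mul_of_nonneg_left h3 hScard.le
          have e2 := mul_le_mul_of_nonneg_left h4 hScard.le
          linarith
      _ = _ := by ring
  have hm := hmain p g3 κ hcard ι S R hS hsum M L hLp
    (fun j => (hmono _ _ (by linarith)).trans (hLδ j))
    ((hmono _ _ (by linarith)).trans hvol)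
  have hPi : 0 ≤ ∏ j, ((L j : ℝ) / p) := prod_nonneg fun j _ => by positivity
  have hlow : (p : ℝ) ^ (-δ) * (S.card * ∏ j, ((L j : ℝ) / p)) ≤
      (p : ℝ) ^ (-(δ / 2)) * (S.card * ∏ j, ((L j : ℝ) / p)) := by
    apply mul_le_mul_of_nonneg_right (hmono _ _ (by linarith)) (by positivity)
  refine hlow.trans (hm.trans ?_)
  have h5 : (S.filter (fun i => ∀ j, ∃ z : ℤ, M j < z ∧ z ≤ M j + L j ∧ (z : ZMod p) = R i j ∧
        ∀ m : ℤ, |(m : ℝ) - z| ≤ κ₀ * ff p →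
          ∃ l : ℕ, l.Prime ∧ (l : ℝ) ≤ (p : ℝ) ^ (δ / 2) ∧ (l : ℤ) ∣ m)) ⊆
      (S.filter (fun i => ∀ j, ∃ z : ℤ, M j < z ∧ z ≤ M j + L j ∧ (z : ZMod p) = R i j ∧
        ∀ m : ℤ, |(m : ℝ) - z| ≤ κ₀ * ff p →
          ∃ l : ℕ, l.Prime ∧ (l : ℝ) ≤ (p : ℝ) ^ δ ∧ (l : ℤ) ∣ m)) := by
    intro i hi
    rw [mem_filter] at hi ⊢
    refine ⟨hi.1, fun j => ?_⟩
    obtain ⟨z, z1, z2, z3, z4⟩ := hi.2 j
    refine ⟨z, z1, z2, z3, fun m hmz => ?_⟩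
    obtain ⟨l, l1, l2, l3⟩ := z4 m hmz
    exact ⟨l, l1, l2.trans (hmono _ _ (by linarith)), l3⟩
  exact_mod_cast card_le_card h5

end Pool.Agent.Run7.h246.MC
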