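import Pool.Agent.Run7.h90.RW.Weil
import Pool.Agent.N647.FG.Thm

/-!
# Families of vectors modulo a prime which are stable under a weighted torus (helper246)
-/

set_option autoImplicit false

open Polynomial Finset Filter

namespace Pool.Agent.Run7.h246.MC

open Pool.Agent.N647.FG (Far fam main)
open Pool.Agent.W147.PS (ff ev_pow)

section
variable (p : ℕ) [Fact p.Prime]

/-- the numerator of a Laurent polynomial -/
noncomputable def lnum {κ : Type} [Fintype κ] (D : ℕ) (w : κ → ℤ) (c : κ → ZMod p) : (ZMod p)[X] :=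
  ∑ j, C (c j) * X ^ ((D : ℤ) + w j).toNat

lemma lnum_natDegree {κ : Type} [Fintype κ] (D : ℕ) (w : κ → ℤ) (hwD : ∀ j, |w j| ≤ D)
    (c : κ → ZMod p) : (lnum p D w c).natDegree ≤ 2 * D := by
  unfold lnum
  apply natDegree_sum_le_of_forall_le
  intro j _
  refine (natDegree_C_mul_X_pow_le _ _).trans ?_
  have := (abs_le.1 (hwD j)).2
  omega

lemma lnum_ne {κ : Type} [Fintype κ] [DecidableEq κ] (D : ℕ) (w : κ → ℤ) (hw0 : ∀ j, w j ≠ 0)
    (hwD : ∀ j, |w j| ≤ D) (c : κ → ZMod p) (d : ℤ)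
    (hc : ∑ j with w j = d, c j ≠ 0) (c' : ZMod p) : lnum p D w c ≠ C c' * X ^ D := by
  intro h
  obtain ⟨j0, hj0, -⟩ := exists_ne_zero_of_sum_ne_zero hc
  rw [mem_filter] at hj0
  have hd0 : d ≠ 0 := hj0.2 ▸ hw0 j0
  have hdD : |d| ≤ D := hj0.2 ▸ hwD j0
  have h1 := congrArg (fun q => q.coeff ((D : ℤ) + d).toNat) h
  unfold lnum at h1
  rw [finsetSum_coeff, coeff_C_mul, coeff_X_pow, if_neg, mul_zero] at h1
  · apply hc
    rw [← h1, sum_filter]
    refine sum_congr rfl fun j _ => ?_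
    rw [coeff_C_mul, coeff_X_pow]
    have e1 := abs_le.1 (hwD j)
    have e2 := abs_le.1 hdD
    by_cases hj : w j = d
    · rw [if_pos hj, hj, if_pos rfl, mul_one]
    · rw [if_neg hj, if_neg, mul_zero]
      omega
  · have e2 := abs_le.1 hdD
    omega

lemma lnum_eval {κ : Type} [Fintype κ] (D : ℕ) (w : κ → ℤ) (hwD : ∀ j, |w j| ≤ D)
    (c : κ → ZMod p) (t : (ZMod p)ˣ) :
    (lnum p D w c).eval (t : ZMod p) / (X ^ D : (ZMod p)[X]).eval (t : ZMod p) =
      ∑ j, c j * ((t ^ w j : (ZMod p)ˣ) : ZMod p) := by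
  have ht : (t : ZMod p) ≠ 0 := t.ne_zero
  unfold lnum
  rw [eval_finsetSum, sum_div]
  refine sum_congr rfl fun j _ => ?_
  rw [eval_mul, eval_C, eval_pow, eval_X, eval_pow, eval_X, Units.val_zpow_eq_zpow_val, mul_div_assoc]
  congr 1
  have e1 := abs_le.1 (hwD j)
  rw [div_eq_iff (pow_ne_zero _ ht)]
  rw [← zpow_natCast, ← zpow_natCast, ← zpow_add₀ ht, Int.toNat_of_nonneg (by omega)]
  congr 1
  ring

/-- the exponential sum of a Laurent polynomial over the units -/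
lemma laurent_sum {κ : Type} [Fintype κ] [DecidableEq κ] (D : ℕ) (hD : 2 * D < p) (w : κ → ℤ)
    (hw0 : ∀ j, w j ≠ 0) (hwD : ∀ j, |w j| ≤ D) (c : κ → ZMod p) (d : ℤ)
    (hc : ∑ j with w j = d, c j ≠ 0) :
    ‖∑ t : (ZMod p)ˣ, (ZMod.stdAddChar (∑ j, c j * ((t ^ w j : (ZMod p)ˣ) : ZMod p)) : ℂ)‖ ≤
      4 * D * Real.sqrt p := by
  classical
  have h1 := Pool.Agent.Run7.h90.RW.weil_rat p (lnum p D w c) (X ^ D) (pow_ne_zero _ X_ne_zero)
    (2 * D) (lnum_natDegree p D w hwD c) (by rw [natDegree_X_pow]; omega) hD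
    (lnum_ne p D w hw0 hwD c d hc) (ZMod.isPrimitive_stdAddChar p)
  obtain ⟨j0, hj0, -⟩ := exists_ne_zero_of_sum_ne_zero hc
  have hD1 : D ≠ 0 := by
    have h2 := hwD j0
    have h3 := hw0 j0
    intro h
    rw [h] at h2
    exact h3 (abs_nonpos_iff.1 (by simpa using h2))
  have h2 : ∑ x : ZMod p, (if (X ^ D : (ZMod p)[X]).eval x = 0 then (0 : ℂ) else
        ZMod.stdAddChar ((lnum p D w c).eval x / (X ^ D : (ZMod p)[X]).eval x)) =
      ∑ t : (ZMod p)ˣ, (ZMod.stdAddChar (∑ j, c j * ((t ^ w j : (ZMod p)ˣ) : ZMod p)) : ℂ) := by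
    have h3 : ∀ x : ZMod p, (X ^ D : (ZMod p)[X]).eval x = 0 ↔ x = 0 := by
      intro x
      rw [eval_pow, eval_X, pow_eq_zero_iff hD1]
    rw [← sum_filter_add_sum_filter_not univ (fun x : ZMod p => x = 0)]
    have h4 : ∑ x ∈ univ.filter (fun x : ZMod p => x = 0),
        (if (X ^ D : (ZMod p)[X]).eval x = 0 then (0 : ℂ) else
        ZMod.stdAddChar ((lnum p D w c).eval x / (X ^ D : (ZMod p)[X]).eval x)) = 0 := by
      refine sum_eq_zero fun x hx => ?_
      rw [if_pos ((h3 x).2 (mem_filter.1 hx).2)]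
    rw [h4, zero_add]
    symm
    refine sum_bij (fun (t : (ZMod p)ˣ) _ => (t : ZMod p)) ?_ ?_ ?_ ?_
    · intro t _
      exact mem_filter.2 ⟨mem_univ _, t.ne_zero⟩
    · intro t _ t' _ h
      exact Units.ext h
    · intro x hx
      exact ⟨Units.mk0 x (mem_filter.1 hx).2, mem_univ _, rfl⟩
    · intro t _
      rw [if_neg (by rw [h3]; exact t.ne_zero), lnum_eval p D w hwD c t]
  rw [h2] at h1
  refine h1.trans (le_of_eq ?_)
  push_cast
  ring

/-- **the exponential sums of a family of vectors which is stable under a weighted torus** -/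
theorem torus_sum {ι κ : Type} [Fintype κ] [DecidableEq κ] (S : Finset ι) (R : ι → κ → ZMod p)
    (D : ℕ) (hD : 2 * D < p) (w : κ → ℤ) (hw0 : ∀ j, w j ≠ 0) (hwD : ∀ j, |w j| ≤ D)
    (act : (ZMod p)ˣ → ι → ι) (hmem : ∀ t, ∀ i ∈ S, act t i ∈ S)
    (hinj : ∀ t, Set.InjOn (act t) S)
    (hact : ∀ t, ∀ i ∈ S, ∀ j, R (act t i) j = ((t ^ w j : (ZMod p)ˣ) : ZMod p) * R i j)
    (α : κ → ZMod p) [DecidablePred fun i => ∀ d : ℤ, ∑ j with w j = d, α j * R i j = 0] :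
    ‖∑ i ∈ S, (ZMod.stdAddChar (∑ j, α j * R i j) : ℂ)‖ ≤
      S.card * (4 * D * Real.sqrt p / (p - 1)) +
        ((S.filter fun i => ∀ d : ℤ, ∑ j with w j = d, α j * R i j = 0).card : ℝ) := by
  classical
  have hp : p.Prime := Fact.out
  have hp1 : (0 : ℝ) < (p : ℝ) - 1 := by
    have : (1 : ℝ) < p := by exact_mod_cast hp.one_lt
    linarith
  have hcard : ((univ : Finset (ZMod p)ˣ).card : ℝ) = (p : ℝ) - 1 := by
    rw [card_univ, ZMod.card_units_eq_totient, Nat.totient_prime hp, Nat.cast_sub hp.one_lt.le]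
    simp
  have h1 : ∀ t : (ZMod p)ˣ, ∑ i ∈ S, (ZMod.stdAddChar (∑ j, α j * R i j) : ℂ) =
      ∑ i ∈ S, (ZMod.stdAddChar (∑ j, (α j * R i j) * ((t ^ w j : (ZMod p)ˣ) : ZMod p)) : ℂ) := by
    intro t
    have himg : S.image (act t) = S := by
      apply eq_of_subset_of_card_le
      · intro i hi
        obtain ⟨i', hi', rfl⟩ := mem_image.1 hi
        exact hmem t i' hi'
      · rw [card_image_of_injOn (hinj t)]
    conv_lhs => rw [← himg]
    rw [sum_image (fun i hi i' hi' h => hinj t hi hi' h)]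
    refine sum_congr rfl fun i hi => ?_
    refine congrArg (fun z => (ZMod.stdAddChar z : ℂ)) (sum_congr rfl fun j _ => ?_)
    rw [hact t i hi j]
    ring
  have h2 : ((p : ℂ) - 1) * ∑ i ∈ S, (ZMod.stdAddChar (∑ j, α j * R i j) : ℂ) =
      ∑ i ∈ S, ∑ t : (ZMod p)ˣ,
        (ZMod.stdAddChar (∑ j, (α j * R i j) * ((t ^ w j : (ZMod p)ˣ) : ZMod p)) : ℂ) := by
    rw [Finset.sum_comm]
    have h1' : ∑ t : (ZMod p)ˣ, ∑ i ∈ S,
        (ZMod.stdAddChar (∑ j, (α j * R i j) * ((t ^ w j : (ZMod p)ˣ) : ZMod p)) : ℂ) =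
        ∑ _t : (ZMod p)ˣ, ∑ i ∈ S, (ZMod.stdAddChar (∑ j, α j * R i j) : ℂ) :=
      sum_congr rfl fun t _ => (h1 t).symm
    rw [h1', sum_const, nsmul_eq_mul]
    congr 1
    have : (((univ : Finset (ZMod p)ˣ).card : ℝ) : ℂ) = (((p : ℝ) - 1 : ℝ) : ℂ) := by rw [hcard]
    push_cast at this
    exact this.symm
  set F := S.filter fun i => ∀ d : ℤ, ∑ j with w j = d, α j * R i j = 0 with hF
  have h3 : ‖∑ i ∈ S, ∑ t : (ZMod p)ˣ,
        (ZMod.stdAddChar (∑ j, (α j * R i j) * ((t ^ w j : (ZMod p)ˣ) : ZMod p)) : ℂ)‖ ≤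
      S.card * (4 * D * Real.sqrt p) + F.card * ((p : ℝ) - 1) := by
    refine (norm_sum_le _ _).trans ?_
    have h4 : ∀ i ∈ S, ‖∑ t : (ZMod p)ˣ,
        (ZMod.stdAddChar (∑ j, (α j * R i j) * ((t ^ w j : (ZMod p)ˣ) : ZMod p)) : ℂ)‖ ≤
        4 * D * Real.sqrt p + (if i ∈ F then (p : ℝ) - 1 else 0) := by
      intro i hi
      by_cases hiF : i ∈ F
      · rw [if_pos hiF]
        have h5 : ‖∑ t : (ZMod p)ˣ,
          (ZMod.stdAddChar (∑ j, (α j * R i j) * ((t ^ w j : (ZMod p)ˣ) : ZMod p)) : ℂ)‖ ≤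
            (p : ℝ) - 1 := by
          refine (norm_sum_le _ _).trans ?_
          rw [← hcard, ← nsmul_one, ← sum_const]
          · refine sum_le_sum fun t _ => ?_
            rw [AddChar.norm_apply]
        have h6 : 0 ≤ 4 * (D : ℝ) * Real.sqrt p := by positivity
        linarith
      · rw [if_neg hiF, add_zero]
        have h5 : ∃ d : ℤ, ∑ j with w j = d, α j * R i j ≠ 0 := by
          by_contra hcon
          push Not at hcon
          exact hiF (mem_filter.2 ⟨hi, hcon⟩)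
        obtain ⟨d, hd⟩ := h5
        exact laurent_sum p D hD w hw0 hwD (fun j => α j * R i j) d hd
    refine (sum_le_sum h4).trans (le_of_eq ?_)
    rw [sum_add_distrib, sum_const, nsmul_eq_mul, ← sum_filter, sum_const, nsmul_eq_mul]
    congr 3
    rw [filter_mem_eq_inter, inter_eq_right.2 (filter_subset _ _)]
  rw [← h2, norm_mul] at h3
  have h7 : ‖(p : ℂ) - 1‖ = (p : ℝ) - 1 := by
    have : ((p : ℂ) - 1) = (((p : ℝ) - 1 : ℝ) : ℂ) := by push_cast; ring
    rw [this, Complex.norm_real, Real.norm_eq_abs, abs_of_pos hp1]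
  rw [h7] at h3
  have h8 : ‖∑ i ∈ S, (ZMod.stdAddChar (∑ j, α j * R i j) : ℂ)‖ ≤
      (S.card * (4 * D * Real.sqrt p) + F.card * ((p : ℝ) - 1)) / ((p : ℝ) - 1) := by
    rw [le_div_iff₀ hp1, mul_comm]
    exact h3
  refine h8.trans (le_of_eq ?_)
  field_simp

end

end Pool.Agent.Run7.h246.MC
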